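import Pool.Agent.H535.BF.Comp

set_option autoImplicit false

/-!
# The number of random primes in an allowed class as a sieve count
-/

open Finset MeasureTheory ProbabilityTheory Filter Topology

namespace Pool.Agent.H535.BF

open Pool.Agent.T2H31.HV

open Classical in
/-- the number of the random primes `n ≤ N` in the class `A` modulo `Q` -/
noncomputable def piR (z : ℕ → ℕ) (b : ℕ → ℕ) (N Q A : ℕ) : ℝ :=
  ((Icc 1 N).filter (fun n => n ∈ T2H32.BF.R z b ∧ n % Q = A)).card

/-- the elements of a class as a progression -/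
theorem sum_class (N Q A : ℕ) (hQ : 1 ≤ Q) (hA : A < Q) (hQN : Q ≤ N) (g : ℕ → ℝ) :
    ∑ n ∈ (range (N + 1)).filter (fun n => n % Q = A), g n =
      ∑ j ∈ range ((N + Q - A) / Q), g (A + j * Q) := by
  symm
  apply sum_nbij' (fun j => A + j * Q) (fun n => n / Q)
  · intro j hj
    rw [mem_range, Nat.lt_iff_add_one_le, Nat.le_div_iff_mul_le hQ] at hj
    rw [mem_filter, mem_range]
    refine ⟨?_, ?_⟩
    · have : (j + 1) * Q = j * Q + Q := by ring
      omega
    · rw [Nat.add_mul_mod_self_right, Nat.mod_eq_of_lt hA]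
  · intro n hn
    rw [mem_filter, mem_range] at hn
    rw [mem_range, Nat.lt_iff_add_one_le, Nat.le_div_iff_mul_le hQ]
    have h1 := Nat.div_add_mod n Q
    rw [hn.2] at h1
    have : (n / Q + 1) * Q = Q * (n / Q) + Q := by ring
    omega
  · intro j _
    show (A + j * Q) / Q = j
    rw [Nat.add_mul_div_right _ _ hQ, Nat.div_eq_of_lt hA, zero_add]
  · intro n hn
    rw [mem_filter] at hn
    show A + n / Q * Q = n
    have h1 := Nat.div_add_mod n Q
    rw [hn.2] at h1
    rw [mul_comm]
    omega
  · intro _ _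
    rfl

theorem piR_eq {z : ℕ → ℕ} (hz : ∀ n, z n ≤ n) (b : ℕ → ℕ) (N Q A : ℕ) (hQ : 1 ≤ Q) (hQN : Q ≤ N)
    (hA : A ∈ Cl Q b) : piR z b N Q A = CF z Q A ((N + Q - A) / Q) (PQ N Q) b := by
  classical
  unfold Cl at hA
  rw [mem_filter, mem_range] at hA
  obtain ⟨hAQ, hAb⟩ := hA
  unfold CF
  rw [← sum_class N Q A hQ hAQ hQN (fun n => i3 n *
    ∏ p ∈ PQ N Q, (if p ≤ z n → n % p ≠ b p then (1 : ℝ) else 0))]
  unfold piR
  rw [card_eq_sum_ones]
  push_cast
  rw [sum_filter, sum_filter]
  have h0 : ∑ n ∈ range (N + 1), (if n % Q = A then i3 n *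
      ∏ p ∈ PQ N Q, (if p ≤ z n → n % p ≠ b p then (1 : ℝ) else 0) else 0) =
      ∑ n ∈ range (N + 1), (if n ∈ T2H32.BF.R z b ∧ n % Q = A then (1 : ℝ) else 0) := by
    refine sum_congr rfl fun n hn => ?_
    rw [mem_range] at hn
    by_cases h1 : n % Q = A
    · rw [if_pos h1]
      by_cases h3 : 3 ≤ n
      · have hi : i3 n = 1 := by
          unfold i3
          rw [if_pos h3]
        rw [hi, one_mul]
        by_cases h2 : n ∈ T2H32.BF.R z b
        · rw [if_pos ⟨h2, h1⟩]
          apply prod_eq_one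
          intro p hp
          rw [if_pos]
          intro hpz
          have hpp : p.Prime := ((mem_PN N p).1 (mem_filter.1 hp).1).2
          exact h2.2 p hpz hpp
        · rw [if_neg (fun h => h2 h.1)]
          have h4 : ∃ p, p ≤ z n ∧ p.Prime ∧ n % p = b p := by
            by_contra hcon
            push Not at hcon
            exact h2 ⟨h3, fun q hq hqp => hcon q hq hqp⟩
          obtain ⟨p, hpz, hpp, hpb⟩ := h4
          have hpN : p ≤ N := hpz.trans ((hz n).trans (by omega))
          have hpQ : ¬ p ∣ Q := by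
            intro hd
            apply hAb p (Nat.mem_primeFactors.2 ⟨hpp, hd, by omega⟩)
            rw [← h1, Nat.mod_mod_of_dvd n hd]
            exact hpb
          apply prod_eq_zero (i := p)
          · unfold PQ
            rw [mem_filter, mem_PN]
            exact ⟨⟨hpN, hpp⟩, hpQ⟩
          · rw [if_neg]
            intro h5
            exact h5 hpz hpb
      · have hi : i3 n = 0 := by
          unfold i3
          rw [if_neg h3]
        rw [hi, zero_mul, if_neg]
        intro h
        exact h3 h.1.1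
    · rw [if_neg h1, if_neg (fun h => h1 h.2)]
  rw [h0]
  rw [range_eq_Ico, sum_eq_sum_Ico_succ_bot (by omega : 0 < N + 1)]
  have h3 : ¬ ((0 : ℕ) ∈ T2H32.BF.R z b ∧ 0 % Q = A) := by
    intro h
    have := h.1.1
    omega
  rw [if_neg h3, zero_add]
  rfl

end Pool.Agent.H535.BF
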