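import Pool.Agent.H535.BF.L2

set_option autoImplicit false

/-!
# The components of the number of random primes in an arithmetic progression
-/

open Finset MeasureTheory ProbabilityTheory Filter Topology

namespace Pool.Agent.H535.BF

open Pool.Agent.T2H31.HV

/-- `1` if `p` is below the sieving limit of `n` -/
noncomputable def aa (z : ℕ → ℕ) (n p : ℕ) : ℝ := if p ≤ z n then 1 else 0

/-- the probability that `n` is not sieved by `p` -/
noncomputable def mm (z : ℕ → ℕ) (n p : ℕ) : ℝ := 1 - aa z n p / p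

/-- `1` if `3 ≤ n` -/
noncomputable def i3 (n : ℕ) : ℝ := if 3 ≤ n then 1 else 0

open Classical in
/-- the number of the `j < J` for which `A + j Q ≥ 3` is not sieved by the primes of `S` -/
noncomputable def CF (z : ℕ → ℕ) (Q A J : ℕ) (S : Finset ℕ) (b : ℕ → ℕ) : ℝ :=
  ∑ j ∈ range J, i3 (A + j * Q) *
    ∏ p ∈ S, (if p ≤ z (A + j * Q) → (A + j * Q) % p ≠ b p then (1 : ℝ) else 0)

/-- its expected value -/
noncomputable def CE (z : ℕ → ℕ) (Q A J : ℕ) (S : Finset ℕ) : ℝ :=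
  ∑ j ∈ range J, i3 (A + j * Q) * ∏ p ∈ S, mm z (A + j * Q) p

/-- the component of the set `s` -/
noncomputable def CC (z : ℕ → ℕ) (Q A J : ℕ) (S s : Finset ℕ) (b : ℕ → ℕ) : ℝ :=
  ∑ j ∈ range J, i3 (A + j * Q) * ((∏ p ∈ s, -(aa z (A + j * Q) p * uu p (A + j * Q) (b p))) *
    ∏ p ∈ S \ s, mm z (A + j * Q) p)

theorem aa_nonneg (z : ℕ → ℕ) (n p : ℕ) : 0 ≤ aa z n p := by
  unfold aa
  split_ifs <;> norm_num

theorem aa_le_one (z : ℕ → ℕ) (n p : ℕ) : aa z n p ≤ 1 := by
  unfold aa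
  split_ifs <;> norm_num

theorem aa_mono {z : ℕ → ℕ} (hz : Monotone z) (p : ℕ) : Monotone fun n => aa z n p := by
  intro n n' hn
  have h1 := hz hn
  simp only [aa]
  split_ifs with h2 h3
  · exact le_rfl
  · exact absurd (h2.trans h1) h3
  · exact zero_le_one
  · exact le_rfl

theorem i3_nonneg (n : ℕ) : 0 ≤ i3 n := by
  unfold i3
  split_ifs <;> norm_num

theorem i3_le_one (n : ℕ) : i3 n ≤ 1 := by
  unfold i3
  split_ifs <;> norm_num

theorem i3_mono : Monotone i3 := by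
  intro n n' hn
  unfold i3
  split_ifs with h2 h3
  · exact le_rfl
  · omega
  · exact zero_le_one
  · exact le_rfl

theorem mm_nonneg (z : ℕ → ℕ) (n : ℕ) {p : ℕ} (hp : p.Prime) : 0 ≤ mm z n p := by
  unfold mm
  have h1 := aa_le_one z n p
  have h2 : (1 : ℝ) ≤ p := by exact_mod_cast hp.one_le
  rw [sub_nonneg, div_le_one (by linarith)]
  linarith

theorem mm_le_one (z : ℕ → ℕ) (n p : ℕ) : mm z n p ≤ 1 := by
  unfold mm
  have h1 := aa_nonneg z n p
  have h3 : 0 ≤ aa z n p / (p : ℝ) := by positivity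
  linarith

theorem mm_anti {z : ℕ → ℕ} (hz : Monotone z) (p : ℕ) : Antitone fun n => mm z n p := by
  intro n n' hn
  have h1 : aa z n p ≤ aa z n' p := aa_mono hz p hn
  simp only [mm]
  have h3 : aa z n p / (p : ℝ) ≤ aa z n' p / (p : ℝ) := by gcongr
  linarith

open Classical in
theorem factor (z : ℕ → ℕ) (n p r : ℕ) :
    (if p ≤ z n → n % p ≠ r then (1 : ℝ) else 0) = -(aa z n p * uu p n r) + mm z n p := by
  unfold aa mm uu aa
  by_cases h1 : p ≤ z n
  · by_cases h2 : n % p = r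
    · simp [h1, h2]
    · simp [h1, h2]
  · simp [h1]

theorem CF_eq (z : ℕ → ℕ) (Q A J : ℕ) (S : Finset ℕ) (b : ℕ → ℕ) :
    CF z Q A J S b = ∑ s ∈ S.powerset, CC z Q A J S s b := by
  classical
  unfold CF CC
  rw [sum_comm]
  refine sum_congr rfl fun j _ => ?_
  rw [prod_congr rfl fun p _ => factor z (A + j * Q) p (b p), prod_add, mul_sum]

theorem CC_empty (z : ℕ → ℕ) (Q A J : ℕ) (S : Finset ℕ) (b : ℕ → ℕ) :
    CC z Q A J S ∅ b = CE z Q A J S := by
  unfold CC CE
  simp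

theorem CC_dep (z : ℕ → ℕ) (Q A J : ℕ) (S s : Finset ℕ) : Dep s (CC z Q A J S s) := by
  intro b b' hb
  unfold CC
  refine sum_congr rfl fun n _ => ?_
  congr 2
  exact prod_congr rfl fun p hp => by rw [hb p hp]

theorem CC_zero (z : ℕ → ℕ) (Q A J : ℕ) (S s : Finset ℕ) (p : ℕ) (hp : p ∈ s) (hp0 : 0 < p)
    (b : ℕ → ℕ) : ∑ r ∈ range p, CC z Q A J S s (Function.update b p r) = 0 := by
  unfold CC
  rw [sum_comm]
  apply sum_eq_zero
  intro j _
  set n := A + j * Q
  have e : ∀ r, ∏ q ∈ s, -(aa z n q * uu q n (Function.update b p r q)) =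
      -(aa z n p * uu p n r) * ∏ q ∈ s.erase p, -(aa z n q * uu q n (b q)) := by
    intro r
    rw [← mul_prod_erase s _ hp, Function.update_self]
    congr 1
    refine prod_congr rfl fun q hq => ?_
    rw [Function.update_of_ne (ne_of_mem_erase hq)]
  simp only [e]
  have e2 : ∀ r, i3 n * ((-(aa z n p * uu p n r) * ∏ q ∈ s.erase p, -(aa z n q * uu q n (b q))) *
      ∏ p ∈ S \ s, mm z n p) = uu p n r * (-(i3 n * aa z n p) *
      ((∏ q ∈ s.erase p, -(aa z n q * uu q n (b q))) * ∏ p ∈ S \ s, mm z n p)) := fun r => by ring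
  simp only [e2]
  rw [← sum_mul, sum_uu hp0, zero_mul]

theorem CC_sq {z : ℕ → ℕ} (hz : Monotone z) (Q A J : ℕ) (S s : Finset ℕ) (hS : ∀ p ∈ S, p.Prime)
    (hSQ : ∀ p ∈ S, ¬ p ∣ Q) (hs : s ⊆ S) (hne : s.Nonempty) :
    ∑ b ∈ Pt s, CC z Q A J S s b ^ 2 ≤ 9 * J * (3 / 2 : ℝ) ^ s.card := by
  set f : ℕ → ℝ := fun j => i3 (A + j * Q) * ∏ p ∈ s, aa z (A + j * Q) p with hf
  set g : ℕ → ℝ := fun j => ∏ p ∈ S \ s, mm z (A + j * Q) p with hg
  have hmon : Monotone fun j => A + j * Q := by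
    intro j j' h
    show A + j * Q ≤ A + j' * Q
    gcongr
  have e : ∀ b, CC z Q A J S s b =
      (-1) ^ s.card * ∑ j ∈ range J, f j * g j * ∏ p ∈ s, uu p (A + j * Q) (b p) := by
    intro b
    unfold CC
    rw [mul_sum]
    refine sum_congr rfl fun j _ => ?_
    have : ∏ p ∈ s, -(aa z (A + j * Q) p * uu p (A + j * Q) (b p)) =
        (-1) ^ s.card * ((∏ p ∈ s, aa z (A + j * Q) p) * ∏ p ∈ s, uu p (A + j * Q) (b p)) := by
      rw [← prod_mul_distrib, ← prod_const, ← prod_mul_distrib]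
      exact prod_congr rfl fun p _ => by ring
    rw [this]
    simp only [hf, hg]
    ring
  have h1 : ∀ b, CC z Q A J S s b ^ 2 =
      (∑ j ∈ range J, f j * g j * ∏ p ∈ s, uu p (A + j * Q) (b p)) ^ 2 := by
    intro b
    rw [e, mul_pow, ← pow_mul, mul_comm s.card 2, pow_mul, neg_one_sq, one_pow, one_mul]
  simp_rw [h1]
  apply bv s (fun p hp => hS p (hs hp)) hne (fun j => A + j * Q)
  · intro p hp n n'
    have hp' := hS p (hs hp)
    have hpQ := hSQ p (hs hp)
    have hcop : Nat.Coprime p Q := (Nat.Prime.coprime_iff_not_dvd hp').2 hpQ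
    constructor
    · intro h
      have h2 : n * Q ≡ n' * Q [MOD p] := Nat.ModEq.add_left_cancel' A h
      exact Nat.ModEq.cancel_right_of_coprime hcop h2
    · intro h
      have h2 : n ≡ n' [MOD p] := h
      exact Nat.ModEq.add_left A (h2.mul_right Q)
  · intro j j' hj
    apply mul_le_mul (i3_mono (hmon hj)) _ (prod_nonneg fun p _ => aa_nonneg _ _ _) (i3_nonneg _)
    exact prod_le_prod (fun p _ => aa_nonneg _ _ _) fun p _ => aa_mono hz p (hmon hj)
  · intro j
    exact mul_nonneg (i3_nonneg _) (prod_nonneg fun p _ => aa_nonneg _ _ _)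
  · intro j
    exact mul_le_one₀ (i3_le_one _) (prod_nonneg fun p _ => aa_nonneg _ _ _)
      (prod_le_one (fun p _ => aa_nonneg _ _ _) fun p _ => aa_le_one _ _ _)
  · intro j j' hj
    exact prod_le_prod (fun p hp => mm_nonneg z _ (hS p (sdiff_subset hp)))
      fun p _ => mm_anti hz p (hmon hj)
  · intro j
    exact prod_nonneg fun p hp => mm_nonneg z _ (hS p (sdiff_subset hp))
  · intro j
    exact prod_le_one (fun p hp => mm_nonneg z _ (hS p (sdiff_subset hp))) fun p _ => mm_le_one _ _ _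

/-- Markov's inequality for the `2k`-th moment -/
theorem tail {Ω : Type} [MeasurableSpace Ω] {P : Measure Ω}
    {a : ℕ → Ω → ℕ} (hM : T2H32.BF.Model P a) {z : ℕ → ℕ} (hz : Monotone z) (Q A J N : ℕ)
    (k : ℕ) (t : ℝ) (ht : 0 < t) :
    P.real {ω | t < |CF z Q A J (PQ N Q) (fun q => a q ω) - CE z Q A J (PQ N Q)|} ≤
      (9 * J) ^ k * (∏ p ∈ PN N, (1 + (1 + √(3 / 2)) ^ (2 * k) / (p : ℝ))) / t ^ (2 * k) := by
  classical
  have := T2H32.BF.prob hM
  set S := PQ N Q with hSdef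
  have hSsub : S ⊆ PN N := filter_subset _ _
  have hS : ∀ p ∈ S, p.Prime := fun p hp => ((mem_PN N p).1 (hSsub hp)).2
  have hSQ : ∀ p ∈ S, ¬ p ∣ Q := fun p hp => (mem_filter.1 hp).2
  have hX : ∀ b, CF z Q A J S b - CE z Q A J S = ∑ s ∈ S.powerset.erase ∅, CC z Q A J S s b := by
    intro b
    rw [CF_eq, ← CC_empty z Q A J S b, ← add_sum_erase _ _ (empty_mem_powerset S)]
    ring
  set G : (ℕ → ℕ) → ℝ := fun b => (∑ s ∈ S.powerset.erase ∅, CC z Q A J S s b) ^ (2 * k) with hG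
  have hdep : Dep S G := by
    intro b b' hb
    simp only [hG]
    congr 1
    refine sum_congr rfl fun s hs => ?_
    have hs' := mem_powerset.1 (mem_of_mem_erase hs)
    exact CC_dep z Q A J S s b b' fun p hp => hb p (hs' hp)
  obtain ⟨hi, hi2⟩ := T_TR Ω P a hM S G hS hdep
  have hmom := T_MOM T_FIN S (CC z Q A J S) (9 * J) (3 / 2) k (fun p hp => (hS p hp).pos) (by positivity)
    (by norm_num) (fun s _ => CC_dep z Q A J S s)
    (fun s hs p hp b => CC_zero z Q A J S s p hp (hS p (hs hp)).pos b)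
    (fun s hs hne => CC_sq hz Q A J S s hS hSQ hs hne)
  have hprod : ∏ p ∈ S, (1 + (1 + √(3 / 2)) ^ (2 * k) / (p : ℝ)) ≤
      ∏ p ∈ PN N, (1 + (1 + √(3 / 2)) ^ (2 * k) / (p : ℝ)) := by
    rw [← prod_sdiff hSsub]
    have h1 : (1 : ℝ) ≤ ∏ p ∈ PN N \ S, (1 + (1 + √(3 / 2)) ^ (2 * k) / (p : ℝ)) := by
      calc (1 : ℝ) = ∏ _p ∈ PN N \ S, (1 : ℝ) := by simp
        _ ≤ _ := by
          apply prod_le_prod (fun _ _ => zero_le_one)
          intro p _
          have : 0 ≤ (1 + √(3 / 2)) ^ (2 * k) / (p : ℝ) := by positivity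
          linarith
    have h2 : 0 ≤ ∏ p ∈ S, (1 + (1 + √(3 / 2)) ^ (2 * k) / (p : ℝ)) :=
      prod_nonneg fun p _ => by positivity
    nlinarith
  have hmark := mul_meas_ge_le_integral_of_nonneg (μ := P) (f := fun ω => G fun q => a q ω)
    (Eventually.of_forall fun ω => by
      simp only [hG, pow_mul]
      positivity) hi (t ^ (2 * k))
  rw [hi2] at hmark
  have hsub : {ω | t < |CF z Q A J S (fun q => a q ω) - CE z Q A J S|} ⊆
      {ω | t ^ (2 * k) ≤ G fun q => a q ω} := by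
    intro ω hω
    simp only [Set.mem_ofPred_eq] at hω ⊢
    rw [hX] at hω
    simp only [hG]
    exact (pow_le_pow_left₀ ht.le hω.le _).trans_eq (Even.pow_abs (even_two_mul k) _)
  rw [le_div_iff₀ (by positivity), mul_comm]
  calc t ^ (2 * k) * P.real {ω | t < |CF z Q A J S (fun q => a q ω) - CE z Q A J S|}
      ≤ t ^ (2 * k) * P.real {ω | t ^ (2 * k) ≤ G fun q => a q ω} := by
        apply mul_le_mul_of_nonneg_left (measureReal_mono hsub) (by positivity)
    _ ≤ _ := hmark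
    _ ≤ _ := hmom
    _ ≤ _ := mul_le_mul_of_nonneg_left hprod (by positivity)

end Pool.Agent.H535.BF
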