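import Pool.Agent.H535.BF.Comp

set_option autoImplicit false

/-!
# All the fluctuations in progressions at once
-/

open Finset MeasureTheory ProbabilityTheory Filter Topology

namespace Pool.Agent.H535.BF

open Pool.Agent.T2H31.HV

theorem numeric (η : ℝ) (hη : 0 < η) : ∃ (k : ℕ) (C : ℝ), 0 < C ∧ ∀ᶠ N : ℕ in atTop,
    9 ^ k * (∏ p ∈ PN N, (1 + (1 + √(3 / 2)) ^ (2 * k) / (p : ℝ))) / ((N : ℝ) ^ η) ^ (2 * k) ≤
        C / (N : ℝ) ^ 4 := by
  obtain ⟨C1, hC1, hV⟩ := V_inv_le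
  set k := ⌈5 / (2 * η)⌉₊ with hk
  have hk5 : 5 ≤ 2 * k * η := by
    have := Nat.le_ceil (5 / (2 * η))
    rw [div_le_iff₀ (by positivity)] at this
    linarith
  set K := (1 + √(3 / 2)) ^ (2 * k) with hK
  have hK0 : 0 ≤ K := by positivity
  set A := ⌈K⌉₊ with hA
  refine ⟨k, 9 ^ k * C1 ^ A, by positivity, ?_⟩
  have hlog : ∀ᶠ N : ℕ in atTop, Real.log N ^ A ≤ N := by
    have h2 := ((Real.isLittleO_pow_log_id_atTop (n := A)).comp_tendsto
      tendsto_natCast_atTop_atTop).bound (show (0 : ℝ) < 1 by norm_num)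
    filter_upwards [h2] with N h3
    simp only [Function.comp, id, Real.norm_eq_abs, one_mul] at h3
    exact (le_abs_self _).trans (h3.trans_eq (abs_of_nonneg (Nat.cast_nonneg N)))
  filter_upwards [hV, hlog, eventually_ge_atTop 2] with N h1 h2 h3
  have hN : (2 : ℝ) ≤ N := by exact_mod_cast h3
  have hN0 : (0 : ℝ) < N := by linarith
  have hL0 : 0 ≤ Real.log N := Real.log_nonneg (by linarith)
  have hprod : ∏ p ∈ PN N, (1 + K / (p : ℝ)) ≤ (C1 * Real.log N) ^ A := by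
    refine (prod_le_V K hK0 N).trans ?_
    apply pow_le_pow_left₀ (inv_nonneg.2 (T2H32.BF.V_pos N).le)
    exact h1
  have hpow : (N : ℝ) ^ 5 ≤ ((N : ℝ) ^ η) ^ (2 * k) := by
    rw [← Real.rpow_natCast ((N : ℝ) ^ η), ← Real.rpow_mul hN0.le, ← Real.rpow_natCast]
    apply Real.rpow_le_rpow_of_exponent_le (by linarith)
    push_cast
    linarith
  rw [div_le_div_iff₀ (by positivity) (by positivity)]
  calc 9 ^ k * (∏ p ∈ PN N, (1 + K / (p : ℝ))) * (N : ℝ) ^ 4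
      ≤ 9 ^ k * (C1 * Real.log N) ^ A * (N : ℝ) ^ 4 := by gcongr
    _ = (9 ^ k * C1 ^ A) * ((N : ℝ) ^ 4 * Real.log N ^ A) := by
        rw [mul_pow]
        ring
    _ ≤ (9 ^ k * C1 ^ A) * ((N : ℝ) ^ 4 * N) := by gcongr
    _ = (9 ^ k * C1 ^ A) * (N : ℝ) ^ 5 := by ring
    _ ≤ _ := by gcongr

theorem FL {Ω : Type} [MeasurableSpace Ω] {P : Measure Ω} {a : ℕ → Ω → ℕ} (hM : T2H32.BF.Model P a)
    {z : ℕ → ℕ} (hz : Monotone z) (η : ℝ) (hη : 0 < η) :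
    ∀ᵐ ω ∂P, ∀ᶠ N : ℕ in atTop, ∀ Q A : ℕ, 1 ≤ Q → Q ≤ N → A < Q →
      |CF z Q A ((N + Q - A) / Q) (PQ N Q) (fun q => a q ω) - CE z Q A ((N + Q - A) / Q) (PQ N Q)| ≤
        √(((N + Q - A) / Q : ℕ) : ℝ) * (N : ℝ) ^ η := by
  classical
  have := T2H32.BF.prob hM
  obtain ⟨k, C, hC, hev⟩ := numeric η hη
  obtain ⟨N0, hN0⟩ := eventually_atTop.1 (hev.and (eventually_ge_atTop 2))
  set J : ℕ → ℕ → ℕ → ℕ := fun N Q A => (N + Q - A) / Q with hJ
  set B : ℕ → ℕ → ℕ → Set Ω := fun N Q A =>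
    {ω | √((J N Q A : ℕ) : ℝ) * (N : ℝ) ^ η < |CF z Q A (J N Q A) (PQ N Q) (fun q => a q ω) -
      CE z Q A (J N Q A) (PQ N Q)|} with hB
  have hb : ∀ N ≥ N0, ∀ Q A, 1 ≤ Q → Q ≤ N → A < Q → P (B N Q A) ≤ ENNReal.ofReal (C / (N : ℝ) ^ 4) := by
    intro N hN Q A hQ1 hQ hA
    obtain ⟨h1, h2⟩ := hN0 N hN
    have hN2 : (2 : ℝ) ≤ N := by exact_mod_cast h2
    have hNpos : (0 : ℝ) < N := by linarith
    have hJ1 : 1 ≤ J N Q A := by
      simp only [hJ]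
      rw [Nat.le_div_iff_mul_le hQ1]
      omega
    have hJr : (1 : ℝ) ≤ (J N Q A : ℕ) := by exact_mod_cast hJ1
    have hJ0 : (0 : ℝ) < (J N Q A : ℕ) := by linarith
    have ht : 0 < √((J N Q A : ℕ) : ℝ) * (N : ℝ) ^ η :=
      mul_pos (Real.sqrt_pos.2 hJ0) (Real.rpow_pos_of_pos hNpos _)
    rw [← ofReal_measureReal]
    apply ENNReal.ofReal_le_ofReal
    refine (tail hM hz Q A (J N Q A) N k _ ht).trans ?_
    have e : (√((J N Q A : ℕ) : ℝ) * (N : ℝ) ^ η) ^ (2 * k) =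
        ((J N Q A : ℕ) : ℝ) ^ k * ((N : ℝ) ^ η) ^ (2 * k) := by
      rw [mul_pow, pow_mul (√((J N Q A : ℕ) : ℝ)), Real.sq_sqrt hJ0.le]
    rw [e, mul_pow]
    have e2 : (9 : ℝ) ^ k * ((J N Q A : ℕ) : ℝ) ^ k *
        (∏ p ∈ PN N, (1 + (1 + √(3 / 2)) ^ (2 * k) / (p : ℝ))) /
          (((J N Q A : ℕ) : ℝ) ^ k * ((N : ℝ) ^ η) ^ (2 * k)) =
        9 ^ k * (∏ p ∈ PN N, (1 + (1 + √(3 / 2)) ^ (2 * k) / (p : ℝ))) / ((N : ℝ) ^ η) ^ (2 * k) := by
      have h3 : ((J N Q A : ℕ) : ℝ) ^ k ≠ 0 := by positivity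
      have h4 : ((N : ℝ) ^ η) ^ (2 * k) ≠ 0 := by positivity
      field_simp
    rw [e2]
    exact h1
  set s : ℕ → Set Ω := fun N => if N0 ≤ N then
    ⋃ Q ∈ Icc 1 N, ⋃ A ∈ range Q, B N Q A else ∅ with hs
  have hsb : ∀ N, P (s N) ≤ ENNReal.ofReal (C * (1 / (N : ℝ) ^ 2)) := by
    intro N
    by_cases hN : N0 ≤ N
    · simp only [hs, if_pos hN]
      obtain ⟨-, h2⟩ := hN0 N hN
      have hN2 : (2 : ℝ) ≤ N := by exact_mod_cast h2
      calc P (⋃ Q ∈ Icc 1 N, ⋃ A ∈ range Q, B N Q A)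
          ≤ ∑ Q ∈ Icc 1 N, P (⋃ A ∈ range Q, B N Q A) :=
            measure_biUnion_finset_le _ _
        _ ≤ ∑ Q ∈ Icc 1 N, ∑ A ∈ range Q, P (B N Q A) :=
            sum_le_sum fun Q _ => measure_biUnion_finset_le _ _
        _ ≤ ∑ Q ∈ Icc 1 N, ∑ A ∈ range Q, ENNReal.ofReal (C / (N : ℝ) ^ 4) := by
            refine sum_le_sum fun Q hQ => sum_le_sum fun A hA => ?_
            rw [Finset.mem_Icc] at hQ
            exact hb N hN Q A hQ.1 hQ.2 (mem_range.1 hA)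
        _ ≤ ∑ Q ∈ Icc 1 N, ((N : ℕ) : ENNReal) * ENNReal.ofReal (C / (N : ℝ) ^ 4) := by
            refine sum_le_sum fun Q hQ => ?_
            rw [Finset.mem_Icc] at hQ
            rw [sum_const, card_range, nsmul_eq_mul]
            gcongr
            exact_mod_cast hQ.2
        _ = ENNReal.ofReal ((N : ℝ) * (N * (C / (N : ℝ) ^ 4))) := by
            have h6 : ∀ x : ℝ, ENNReal.ofReal ((N : ℝ) * (N * x)) =
                ((N : ℕ) : ENNReal) * (((N : ℕ) : ENNReal) * ENNReal.ofReal x) := by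
              intro x
              rw [ENNReal.ofReal_mul (by positivity), ENNReal.ofReal_mul (by positivity),
                ENNReal.ofReal_natCast]
            rw [h6, sum_const, Nat.card_Icc, nsmul_eq_mul, Nat.add_sub_cancel]
        _ ≤ ENNReal.ofReal (C * (1 / (N : ℝ) ^ 2)) := by
            apply ENNReal.ofReal_le_ofReal
            have hN0' : (0 : ℝ) < N := by linarith
            apply le_of_eq
            field_simp
    · simp only [hs, if_neg hN, measure_empty, zero_le]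
  have hsum : ∑' N, P (s N) ≠ ⊤ := by
    have h1 : Summable fun N : ℕ => C * (1 / (N : ℝ) ^ 2) :=
      (Real.summable_one_div_nat_pow.2 (by norm_num)).mul_left _
    have h2 := ENNReal.ofReal_tsum_of_nonneg (fun N => by positivity) h1
    exact ne_top_of_le_ne_top (by rw [← h2]; exact ENNReal.ofReal_ne_top) (ENNReal.tsum_le_tsum hsb)
  filter_upwards [ae_eventually_notMem hsum] with ω hω
  filter_upwards [hω, eventually_ge_atTop N0] with N h1 h2 Q A hQ1 hQ hA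
  simp only [hs, if_pos h2, Set.mem_iUnion, not_exists] at h1
  have h3 := h1 Q (Finset.mem_Icc.2 ⟨hQ1, hQ⟩) A (mem_range.2 hA)
  exact not_lt.1 h3

end Pool.Agent.H535.BF
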