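import Pool.Graph.R_pool_sql_team_seeded_707910d6.T2H31.HV.All

set_option autoImplicit false

/-!
# Mean squares of products of centred class indicators along arithmetic progressions
-/

open Finset MeasureTheory ProbabilityTheory Filter Topology

namespace Pool.Agent.H535.BF

open Pool.Agent.T2H31.HV

/-- the mean square, with a general parametrisation `ν p n` of the residues -/
theorem l2 (s : Finset ℕ) (hs : ∀ p ∈ s, p.Prime) (hne : s.Nonempty) (ν : ℕ → ℕ)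
    (hν : ∀ p ∈ s, ∀ n n', ν n % p = ν n' % p ↔ n % p = n' % p) (j : ℕ) :
    ∑ b ∈ Pt s, (∑ n ∈ range j, ∏ p ∈ s, uu p (ν n) (b p)) ^ 2 ≤ j * (3 / 2 : ℝ) ^ s.card := by
  classical
  have h0 := L2.general s hs hne (fun _ => 0) j
  have key : ∀ μ : ℕ → ℕ, (∀ p ∈ s, ∀ n n', μ n % p = μ n' % p ↔ n % p = n' % p) →
      ∑ b ∈ Pt s, (∑ n ∈ range j, ∏ p ∈ s, uu p (μ n) (b p)) ^ 2 =
        ∑ n ∈ range j, ∑ n' ∈ range j, ∏ p ∈ s, ((if n % p = n' % p then 1 else 0) + (-(1 / (p : ℝ)))) := by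
    intro μ hμ
    have h2 : ∀ b ∈ Pt s, (∑ n ∈ range j, ∏ p ∈ s, uu p (μ n) (b p)) ^ 2 =
        ∑ n ∈ range j, ∑ n' ∈ range j, ∏ p ∈ s, (uu p (μ n) (b p) * uu p (μ n') (b p)) := by
      intro b _
      rw [sq, sum_mul_sum]
      simp_rw [prod_mul_distrib]
    rw [sum_congr rfl h2, sum_comm]
    refine sum_congr rfl fun n _ => ?_
    rw [sum_comm]
    refine sum_congr rfl fun n' _ => ?_
    rw [L2.sum_Pt_prod s fun p r => uu p (μ n) r * uu p (μ n') r]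
    refine prod_congr rfl fun p hp => ?_
    rw [L2.sum_uu p (μ n) (μ n') (hs p hp).pos]
    congr 1
    exact if_congr (hμ p hp n n') rfl rfl
  simp only [add_zero] at h0
  rw [key ν hν]
  rw [key (fun n => n) (fun p _ n n' => Iff.rfl)] at h0
  exact h0

/-- with weights -/
theorem bv (s : Finset ℕ) (hs : ∀ p ∈ s, p.Prime) (hne : s.Nonempty) (ν : ℕ → ℕ)
    (hν : ∀ p ∈ s, ∀ n n', ν n % p = ν n' % p ↔ n % p = n' % p) (M : ℕ) (f g : ℕ → ℝ)
    (hf : Monotone f) (hf0 : ∀ n, 0 ≤ f n) (hfB : ∀ n, f n ≤ 1) (hg : Antitone g) (hg0 : ∀ n, 0 ≤ g n)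
    (hg1 : ∀ n, g n ≤ 1) :
    ∑ b ∈ Pt s, (∑ n ∈ range M, f n * g n * ∏ p ∈ s, uu p (ν n) (b p)) ^ 2 ≤
      9 * M * (3 / 2 : ℝ) ^ s.card := by
  rcases M with _ | m
  · simp
  set B : ℝ := 1
  have hB : 0 ≤ B := zero_le_one
  set w : ℕ → ℝ := fun j => if j = m then f m * g m else -(f (j + 1) * g (j + 1) - f j * g j) with hw
  set S : (ℕ → ℕ) → ℕ → ℝ := fun b j => ∑ n ∈ range (j + 1), ∏ p ∈ s, uu p (ν n) (b p) with hS
  have hwB : ∑ j ∈ range (m + 1), |w j| ≤ 3 * B :=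
    BV.weights m B f g hf hf0 (fun n _ => hfB n) hg hg0 hg1
  have hw0 : 0 ≤ ∑ j ∈ range (m + 1), |w j| := sum_nonneg fun _ _ => abs_nonneg _
  have h1 : ∀ b ∈ Pt s, (∑ n ∈ range (m + 1), f n * g n * ∏ p ∈ s, uu p (ν n) (b p)) ^ 2 ≤
      (3 * B) * ∑ j ∈ range (m + 1), |w j| * S b j ^ 2 := by
    intro b _
    have h2 := BV.parts m (fun n => f n * g n) fun n => ∏ p ∈ s, uu p (ν n) (b p)
    rw [h2]
    refine (BV.wcs (range (m + 1)) w (S b)).trans ?_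
    exact mul_le_mul_of_nonneg_right hwB (sum_nonneg fun j _ => mul_nonneg (abs_nonneg _) (sq_nonneg _))
  refine (sum_le_sum h1).trans ?_
  rw [← mul_sum, sum_comm]
  have h3 : ∑ j ∈ range (m + 1), ∑ b ∈ Pt s, |w j| * S b j ^ 2 ≤
      ∑ j ∈ range (m + 1), |w j| * (((m + 1 : ℕ) : ℝ) * (3 / 2 : ℝ) ^ s.card) := by
    refine sum_le_sum fun j hj => ?_
    rw [← mul_sum]
    refine mul_le_mul_of_nonneg_left ?_ (abs_nonneg _)
    refine (l2 s hs hne ν hν (j + 1)).trans ?_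
    refine mul_le_mul_of_nonneg_right ?_ (by positivity)
    have := mem_range.1 hj
    exact_mod_cast (by omega : j + 1 ≤ m + 1)
  rw [← sum_mul] at h3
  have h4 : 0 ≤ ((m + 1 : ℕ) : ℝ) * (3 / 2 : ℝ) ^ s.card := by positivity
  calc (3 * B) * ∑ j ∈ range (m + 1), ∑ b ∈ Pt s, |w j| * S b j ^ 2
      ≤ (3 * B) * ((∑ j ∈ range (m + 1), |w j|) * (((m + 1 : ℕ) : ℝ) * (3 / 2 : ℝ) ^ s.card)) :=
        mul_le_mul_of_nonneg_left h3 (by positivity)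
    _ ≤ (3 * B) * ((3 * B) * (((m + 1 : ℕ) : ℝ) * (3 / 2 : ℝ) ^ s.card)) :=
        mul_le_mul_of_nonneg_left (mul_le_mul_of_nonneg_right hwB h4) (by positivity)
    _ = 9 * ((m + 1 : ℕ) : ℝ) * (3 / 2 : ℝ) ^ s.card := by simp only [B]; ring

end Pool.Agent.H535.BF
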