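import Pool.Agent.H535.BF.Main

set_option autoImplicit false

/-!
# The bound is optimal, and the inequality of Elliott and Halberstam
-/

open Finset MeasureTheory ProbabilityTheory Filter Topology

namespace Pool.Agent.H535.BF

open Pool.Agent.T2H31.HV Pool.Agent.T2H32.BF

theorem inv_log_contOn {x : ℝ} (hx : 2 ≤ x) : ContinuousOn (fun t : ℝ => 1 / Real.log t) (Set.uIcc 2 x) := by
  rw [Set.uIcc_of_le hx]
  apply ContinuousOn.div continuousOn_const
  · exact Real.continuousOn_log.mono fun t ht => by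
      simp only [Set.mem_compl_iff, Set.mem_singleton_iff]
      linarith [ht.1]
  · intro t ht
    exact (Real.log_pos (by linarith [ht.1])).ne'

theorem li_deriv {x : ℝ} (hx : 2 ≤ x) : HasDerivAt li (1 / Real.log x) x := by
  have h1 : ContinuousAt (fun t : ℝ => 1 / Real.log t) x := by
    apply ContinuousAt.div continuousAt_const
    · exact Real.continuousAt_log (by linarith)
    · exact (Real.log_pos (by linarith)).ne'
  exact intervalIntegral.integral_hasDerivAt_right ((inv_log_contOn hx).intervalIntegrable)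
    (ContinuousAt.stronglyMeasurableAtFilter (isOpen_Ioi (a := (1 : ℝ)))
      (fun t ht => by
        have ht1 : (1 : ℝ) < t := ht
        apply ContinuousAt.div continuousAt_const
        · exact Real.continuousAt_log (by linarith)
        · exact (Real.log_pos ht1).ne') x (show (1 : ℝ) < x by linarith)) h1

theorem li_parts {X : ℝ} (hX : 2 ≤ X) :
    ∫ t in (2 : ℝ)..X, li t * t⁻¹ = li X * Real.log X - (X - 2) := by
  have hi1 : IntervalIntegrable (fun t : ℝ => 1 / Real.log t) volume 2 X :=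
    (inv_log_contOn hX).intervalIntegrable
  have hi2 : IntervalIntegrable (fun t : ℝ => t⁻¹) volume 2 X := by
    apply ContinuousOn.intervalIntegrable
    apply ContinuousOn.inv₀ continuousOn_id
    intro t ht
    rw [Set.uIcc_of_le hX] at ht
    simp only [id]
    linarith [ht.1]
  have h := intervalIntegral.integral_mul_deriv_eq_deriv_mul (u := li) (v := Real.log)
    (u' := fun t => 1 / Real.log t) (v' := fun t => t⁻¹) (a := 2) (b := X)
    (fun t ht => by
      rw [Set.uIcc_of_le hX] at ht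
      exact li_deriv ht.1)
    (fun t ht => by
      rw [Set.uIcc_of_le hX] at ht
      exact Real.hasDerivAt_log (by linarith [ht.1])) hi1 hi2
  rw [h]
  have h2 : li 2 = 0 := by
    unfold li
    simp
  have h3 : ∫ t in (2 : ℝ)..X, 1 / Real.log t * Real.log t = ∫ t in (2 : ℝ)..X, (1 : ℝ) := by
    apply intervalIntegral.integral_congr
    intro t ht
    rw [Set.uIcc_of_le hX] at ht
    have : Real.log t ≠ 0 := (Real.log_pos (by linarith [ht.1])).ne'
    simp only
    field_simp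
  rw [h2, h3, intervalIntegral.integral_const, smul_eq_mul, mul_one, zero_mul, sub_zero]

/-- partial summation -/
theorem abel (c : ℕ → ℝ) (hc : ∀ k ≤ 2, c k = 0) (X f B : ℝ) (hX : 2 ≤ X) (hf : 0 < f)
    (h : ∀ y, 2 ≤ y → y ≤ X → |∑ k ∈ Icc 0 ⌊y⌋₊, c k - li y / f| ≤ B) :
    |∑ k ∈ Icc 0 ⌊X⌋₊, Real.log k * c k - X / f| ≤ 2 * B * Real.log X + 2 / f := by
  have hB : 0 ≤ B := (abs_nonneg _).trans (h X hX le_rfl)
  have hinvint : IntegrableOn (fun t : ℝ => t⁻¹) (Set.Icc 2 X) := by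
    apply ContinuousOn.integrableOn_Icc
    apply ContinuousOn.inv₀ continuousOn_id
    intro t ht
    simp only [id]
    linarith [ht.1]
  have hderiv : deriv Real.log = fun t : ℝ => t⁻¹ := by
    funext t
    exact Real.deriv_log t
  have a1 := sum_mul_eq_sub_sub_integral_mul c (f := Real.log) (a := 2) (b := X) (by norm_num) hX
    (fun t ht => Real.differentiableAt_log (by linarith [ht.1])) (by rw [hderiv]; exact hinvint)
  have hfl2 : ⌊(2 : ℝ)⌋₊ = 2 := by
    rw [Nat.floor_eq_iff (by norm_num)]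
    norm_num
  have hfX : 2 ≤ ⌊X⌋₊ := Nat.le_floor (by exact_mod_cast hX)
  have h0 : ∑ k ∈ Icc 0 ⌊(2 : ℝ)⌋₊, c k = 0 := by
    rw [hfl2]
    exact sum_eq_zero fun k hk => hc k (Finset.mem_Icc.1 hk).2
  have h1 : ∑ k ∈ Ioc ⌊(2 : ℝ)⌋₊ ⌊X⌋₊, Real.log k * c k = ∑ k ∈ Icc 0 ⌊X⌋₊, Real.log k * c k := by
    apply sum_subset
    · intro k hk
      rw [Finset.mem_Ioc] at hk
      exact Finset.mem_Icc.2 ⟨Nat.zero_le _, hk.2⟩
    · intro k hk hk2
      rw [Finset.mem_Icc] at hk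
      rw [Finset.mem_Ioc, hfl2, not_and] at hk2
      have : k ≤ 2 := by
        by_contra hcon
        exact hk2 (by omega) hk.2
      rw [hc k this, mul_zero]
  rw [h0, mul_zero, sub_zero, h1] at a1
  have a2 := li_parts hX
  have hi1 : IntervalIntegrable (fun t : ℝ => t⁻¹ * ∑ k ∈ Icc 0 ⌊t⌋₊, c k) volume 2 X := by
    rw [intervalIntegrable_iff_integrableOn_Icc_of_le hX]
    exact integrableOn_mul_sum_Icc c (by norm_num) hinvint
  have hi2 : IntervalIntegrable (fun t : ℝ => li t * t⁻¹) volume 2 X := by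
    apply ContinuousOn.intervalIntegrable
    rw [Set.uIcc_of_le hX]
    apply ContinuousOn.mul
    · intro t ht
      exact (li_deriv ht.1).continuousAt.continuousWithinAt
    · apply ContinuousOn.inv₀ continuousOn_id
      intro t ht
      simp only [id]
      linarith [ht.1]
  have a3 : ∫ t in (2 : ℝ)..X, t⁻¹ * (∑ k ∈ Icc 0 ⌊t⌋₊, c k - li t / f) =
      (∫ t in (2 : ℝ)..X, t⁻¹ * ∑ k ∈ Icc 0 ⌊t⌋₊, c k) - (1 / f) * ∫ t in (2 : ℝ)..X, li t * t⁻¹ := by
    rw [← intervalIntegral.integral_const_mul, ← intervalIntegral.integral_sub hi1 (hi2.const_mul _)]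
    apply intervalIntegral.integral_congr
    intro t _
    simp only
    ring
  have a4 : |∫ t in (2 : ℝ)..X, t⁻¹ * (∑ k ∈ Icc 0 ⌊t⌋₊, c k - li t / f)| ≤ B * (Real.log X - Real.log 2) := by
    have hib : IntervalIntegrable (fun t : ℝ => B * t⁻¹) volume 2 X := by
      rw [intervalIntegrable_iff_integrableOn_Icc_of_le hX]
      exact hinvint.const_mul _
    have h5 := intervalIntegral.norm_integral_le_of_norm_le (a := 2) (b := X) (μ := volume)
      (f := fun t : ℝ => t⁻¹ * (∑ k ∈ Icc 0 ⌊t⌋₊, c k - li t / f)) (g := fun t => B * t⁻¹) hX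
      (Eventually.of_forall fun t ht => by
        rw [Real.norm_eq_abs, abs_mul, abs_of_pos (inv_pos.2 (by linarith [ht.1] : (0 : ℝ) < t)), mul_comm]
        apply mul_le_mul_of_nonneg_right (h t ht.1.le ht.2)
        exact (inv_pos.2 (by linarith [ht.1] : (0 : ℝ) < t)).le) hib
    rw [Real.norm_eq_abs] at h5
    refine h5.trans (le_of_eq ?_)
    rw [intervalIntegral.integral_const_mul, integral_inv_of_pos (by norm_num) (by linarith),
      Real.log_div (by linarith) (by norm_num)]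
  have a5 : ∫ t in Set.Ioc (2 : ℝ) X, deriv Real.log t * ∑ k ∈ Icc 0 ⌊t⌋₊, c k =
      ∫ t in (2 : ℝ)..X, t⁻¹ * ∑ k ∈ Icc 0 ⌊t⌋₊, c k := by
    rw [intervalIntegral.integral_of_le hX, hderiv]
  rw [a5] at a1
  have a6 : ∑ k ∈ Icc 0 ⌊X⌋₊, Real.log k * c k - X / f =
      Real.log X * (∑ k ∈ Icc 0 ⌊X⌋₊, c k - li X / f) -
        (∫ t in (2 : ℝ)..X, t⁻¹ * (∑ k ∈ Icc 0 ⌊t⌋₊, c k - li t / f)) - 2 / f := by
    rw [a3, a2, a1]
    field_simp
    ring
  have hL : 0 ≤ Real.log X := Real.log_nonneg (by linarith)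
  have hL2 : 0 ≤ Real.log 2 := Real.log_nonneg (by norm_num)
  have a7 : |Real.log X * (∑ k ∈ Icc 0 ⌊X⌋₊, c k - li X / f)| ≤ Real.log X * B := by
    rw [abs_mul, abs_of_nonneg hL]
    exact mul_le_mul_of_nonneg_left (h X hX le_rfl) hL
  have h2f : 0 < 2 / f := by positivity
  rw [a6]
  have t1 := abs_sub (Real.log X * (∑ k ∈ Icc 0 ⌊X⌋₊, c k - li X / f) -
        (∫ t in (2 : ℝ)..X, t⁻¹ * (∑ k ∈ Icc 0 ⌊t⌋₊, c k - li t / f))) (2 / f)
  have t2 := abs_sub (Real.log X * (∑ k ∈ Icc 0 ⌊X⌋₊, c k - li X / f))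
        (∫ t in (2 : ℝ)..X, t⁻¹ * (∑ k ∈ Icc 0 ⌊t⌋₊, c k - li t / f))
  rw [abs_of_pos h2f] at t1
  have : 0 ≤ B * Real.log 2 := mul_nonneg hB hL2
  nlinarith

theorem low (b : ℕ → ℕ) (hcard : ∀ Q : ℕ, 1 ≤ Q → (Cl Q b).card = Nat.totient Q)
    (hG : ∀ ε δ : ℝ, 0 < ε → 0 < δ → ∀ᶠ X : ℝ in atTop, ∀ Q : ℕ, X ^ (1 / 2 + ε) < Q → (Q : ℝ) < X →
        |GX z0 b X Q / (X * Real.log Q) - 1| ≤ δ) (ε : ℝ) (hε : 0 < ε) :
    ∀ᶠ X : ℝ in atTop, ∀ Q : ℕ, X ^ (1 / 2 + ε) < Q → (Q : ℝ) < X →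
      ∃ l ∈ Cl Q b, ∃ y, 2 ≤ y ∧ y ≤ X ∧
        1 / 8 * √(X / (Q * Real.log X)) ≤ |piR z0 b ⌊y⌋₊ Q l - li y / Nat.totient Q| := by
  classical
  filter_upwards [hG ε (1 / 2) hε (by norm_num), eventually_ge_atTop 2,
    Real.tendsto_log_atTop.eventually_gt_atTop 64] with X hX hX2 hXl Q hQ1 hQ2
  have hX0 : 0 < X := by linarith
  have hQr0 : (0 : ℝ) < Q := lt_of_le_of_lt (by positivity) hQ1
  have hQ1' : 1 ≤ Q := by
    have : 0 < Q := by exact_mod_cast hQr0
    omega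
  have hφ0 : (0 : ℝ) < Nat.totient Q := by exact_mod_cast Nat.totient_pos.2 hQ1'
  have hφ1 : (1 : ℝ) ≤ Nat.totient Q := by exact_mod_cast Nat.totient_pos.2 hQ1'
  have hφQ : (Nat.totient Q : ℝ) ≤ Q := by exact_mod_cast Nat.totient_le Q
  set L := Real.log X with hL
  have hlogQ : L / 2 ≤ Real.log Q := by
    have h1 : X ^ (1 / 2 : ℝ) ≤ Q := by
      refine le_trans ?_ hQ1.le
      exact Real.rpow_le_rpow_of_exponent_le (by linarith) (by linarith)
    have h2 := Real.log_le_log (by positivity) h1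
    rw [Real.log_rpow hX0] at h2
    linarith
  by_contra hcon
  push Not at hcon
  set B : ℝ := 1 / 8 * √(X / (Q * L)) with hB
  set S : ℝ := √(X * L / Q) with hS
  have hL0 : 0 < L := by linarith
  have hS8 : 8 < S := by
    rw [hS]
    apply Real.lt_sqrt_of_sq_lt
    have : L ≤ X * L / Q := by
      rw [le_div_iff₀ hQr0]
      nlinarith
    linarith
  have hSS : S ^ 2 = X * L / Q := Real.sq_sqrt (by positivity)
  have hBL : 2 * B * L = S / 4 := by
    have e : √(X / (Q * L)) * L = S := by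
      rw [hS, show X * L / Q = X / (Q * L) * L ^ 2 by field_simp, Real.sqrt_mul (by positivity),
        Real.sqrt_sq hL0.le]
    rw [hB]
    linarith
  set T : ℝ := S / 4 + 2 with hT
  have hT0 : 0 ≤ T := by linarith
  -- all the classes
  have hcl : ∀ A ∈ Cl Q b, (psiR z0 b ⌊X⌋₊ Q A - X / Nat.totient Q) ^ 2 ≤ T ^ 2 := by
    intro A hA
    set c : ℕ → ℝ := fun k => if k ∈ R z0 b ∧ k % Q = A then 1 else 0 with hc
    have hc2 : ∀ k ≤ 2, c k = 0 := by
      intro k hk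
      simp only [hc]
      rw [if_neg]
      intro h
      have := h.1.1
      omega
    have hpi : ∀ N : ℕ, ∑ k ∈ Icc 0 N, c k = piR z0 b N Q A := by
      intro N
      unfold piR
      rw [card_eq_sum_ones]
      push_cast
      rw [sum_filter]
      symm
      apply sum_subset
      · intro k hk
        rw [Finset.mem_Icc] at hk ⊢
        omega
      · intro k hk hk2
        rw [Finset.mem_Icc] at hk hk2
        exact hc2 k (by omega)
    have hpsi : ∑ k ∈ Icc 0 ⌊X⌋₊, Real.log k * c k = psiR z0 b ⌊X⌋₊ Q A := by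
      unfold psiR
      rw [sum_filter]
      symm
      have e : ∀ k : ℕ, (if k ∈ R z0 b ∧ k % Q = A then Real.log (k : ℝ) else 0) = Real.log k * c k := by
        intro k
        simp only [hc]
        split_ifs <;> simp
      rw [sum_congr rfl fun k _ => e k]
      apply sum_subset
      · intro k hk
        rw [Finset.mem_Icc] at hk ⊢
        omega
      · intro k hk hk2
        rw [Finset.mem_Icc] at hk hk2
        rw [hc2 k (by omega), mul_zero]
    have h1 := abel c hc2 X (Nat.totient Q) B hX2 hφ0 (fun y hy1 hy2 => by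
      rw [hpi]
      exact (hcon A hA y hy1 hy2).le)
    rw [hpsi, ← hL, hBL] at h1
    have h2 : 2 / (Nat.totient Q : ℝ) ≤ 2 := by
      rw [div_le_iff₀ hφ0]
      linarith
    rw [← sq_abs]
    apply pow_le_pow_left₀ (abs_nonneg _)
    linarith
  have hGle : GX z0 b X Q ≤ Q * T ^ 2 := by
    unfold GX
    refine (sum_le_sum hcl).trans ?_
    rw [sum_const, hcard Q hQ1', nsmul_eq_mul]
    exact mul_le_mul_of_nonneg_right hφQ (sq_nonneg _)
  have hXQ : 0 < X * Real.log Q := by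
    have : 0 < Real.log Q := by linarith
    positivity
  have hGge : 1 / 2 * (X * Real.log Q) ≤ GX z0 b X Q := by
    have h1 := (abs_le.1 (hX Q hQ1 hQ2)).1
    have h2 : 1 / 2 ≤ GX z0 b X Q / (X * Real.log Q) := by linarith
    rwa [le_div_iff₀ hXQ] at h2
  have h3 : Q * T ^ 2 < Q * (S ^ 2 / 4) := by
    apply mul_lt_mul_of_pos_left _ hQr0
    have : T < S / 2 := by linarith
    nlinarith
  have h4 : (Q : ℝ) * (S ^ 2 / 4) ≤ 1 / 2 * (X * Real.log Q) := by
    rw [hSS]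
    have : (Q : ℝ) * (X * L / Q / 4) = X * L / 4 := by field_simp
    rw [this]
    nlinarith
  linarith

/-- the sum over the moduli -/
theorem ehsum (b : ℕ → ℕ) (C ε : ℝ) (hC : 0 < C)
    (h : ∀ x y : ℝ, ∀ d l : ℕ, 1 ≤ d → (d : ℝ) ≤ x → 2 ≤ y → y ≤ x → l ∈ Cl d b →
      |piR z0 b ⌊y⌋₊ d l - li y / Nat.totient d| ≤ C * x ^ ε * √(x / d))
    (α x : ℝ) (hα : α ≤ 1) (hx : 2 ≤ x) (l : ℕ → ℕ) (y : ℕ → ℝ) (hl : ∀ d, 1 ≤ d → l d ∈ Cl d b)
    (hy : ∀ d, 2 ≤ y d ∧ y d ≤ x) :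
    ∑ d ∈ Icc 1 ⌊x ^ α⌋₊, |piR z0 b ⌊y d⌋₊ d (l d) - li (y d) / Nat.totient d| ≤
      2 * C * x ^ ((1 + α) / 2 + ε) := by
  have hx0 : 0 < x := by linarith
  set D := ⌊x ^ α⌋₊ with hD
  have hDx : (D : ℝ) ≤ x ^ α := Nat.floor_le (by positivity)
  have hxα : x ^ α ≤ x := by
    calc x ^ α ≤ x ^ (1 : ℝ) := Real.rpow_le_rpow_of_exponent_le (by linarith) hα
      _ = x := Real.rpow_one x
  have hterm : ∀ d ∈ Icc 1 D, |piR z0 b ⌊y d⌋₊ d (l d) - li (y d) / Nat.totient d| ≤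
      (C * x ^ ε * √x) * (1 / √(d : ℝ)) := by
    intro d hd
    rw [Finset.mem_Icc] at hd
    have hdx : (d : ℝ) ≤ x := by
      have : (d : ℝ) ≤ D := by exact_mod_cast hd.2
      linarith
    have h1 := h x (y d) d (l d) hd.1 hdx (hy d).1 (hy d).2 (hl d hd.1)
    rw [Real.sqrt_div hx0.le] at h1
    refine h1.trans (le_of_eq ?_)
    ring
  have h2 : ∑ d ∈ Icc 1 D, 1 / √(d : ℝ) ≤ 2 * √(D : ℝ) := by
    have h3 := E3.sqrt_sum D
    have h4 : Ico 1 (D + 1) = Icc 1 D := by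
      ext n
      rw [Finset.mem_Ico, Finset.mem_Icc]
      omega
    rwa [h4] at h3
  have h5 : √(D : ℝ) ≤ x ^ (α / 2) := by
    rw [Real.sqrt_le_left (by positivity), ← Real.rpow_natCast, ← Real.rpow_mul hx0.le]
    refine hDx.trans (le_of_eq ?_)
    congr 1
    push_cast
    ring
  calc ∑ d ∈ Icc 1 D, |piR z0 b ⌊y d⌋₊ d (l d) - li (y d) / Nat.totient d|
      ≤ ∑ d ∈ Icc 1 D, (C * x ^ ε * √x) * (1 / √(d : ℝ)) := sum_le_sum hterm
    _ = (C * x ^ ε * √x) * ∑ d ∈ Icc 1 D, 1 / √(d : ℝ) := by rw [mul_sum]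
    _ ≤ (C * x ^ ε * √x) * (2 * x ^ (α / 2)) := by
        apply mul_le_mul_of_nonneg_left _ (by positivity)
        linarith
    _ = 2 * C * x ^ ((1 + α) / 2 + ε) := by
        rw [Real.sqrt_eq_rpow, show (1 + α) / 2 + ε = ε + (1 / 2 + α / 2) by ring, Real.rpow_add hx0,
          Real.rpow_add hx0]
        ring

end Pool.Agent.H535.BF
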