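import Pool.Agent.H535.BF.Cnt

set_option autoImplicit false

/-!
# The expected number of random primes in a class
-/

open Finset MeasureTheory ProbabilityTheory Filter Topology

namespace Pool.Agent.H535.BF

open Pool.Agent.T2H31.HV Pool.Agent.T2H32.BF

/-- the logarithmic integral -/
noncomputable def li (x : ℝ) : ℝ := ∫ t in (2 : ℝ)..x, 1 / Real.log t

theorem tot_eq {N Q : ℕ} (hQ : 1 ≤ Q) (hQN : Q ≤ N) :
    (Nat.totient Q : ℝ) / Q = ∏ p ∈ PN N, if p ∣ Q then 1 - 1 / (p : ℝ) else 1 := by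
  rw [← prod_filter]
  have h1 : (PN N).filter (fun p => p ∣ Q) = Q.primeFactors := by
    ext p
    rw [mem_filter, mem_PN, Nat.mem_primeFactors]
    constructor
    · rintro ⟨⟨_, h2⟩, h3⟩
      exact ⟨h2, h3, by omega⟩
    · rintro ⟨h2, h3, _⟩
      exact ⟨⟨(Nat.le_of_dvd (by omega) h3).trans hQN, h2⟩, h3⟩
  have hQ0 : (0 : ℝ) < Q := by exact_mod_cast hQ
  have h2 := Nat.totient_eq_mul_prod_factors Q
  have h3 : (Nat.totient Q : ℝ) = Q * ∏ p ∈ Q.primeFactors, (1 - (p : ℝ)⁻¹) := by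
    have := congrArg (fun x : ℚ => (x : ℝ)) h2
    push_cast at this
    exact this
  rw [h1, h3, mul_div_cancel_left₀ _ hQ0.ne']
  exact prod_congr rfl fun p _ => by rw [one_div]

theorem V_mul {z : ℕ → ℕ} {N Q n : ℕ} (hQ : 1 ≤ Q) (hQN : Q ≤ N) (hz : z n ≤ N) :
    (Nat.totient Q : ℝ) / Q * ∏ p ∈ PQ N Q, mm z n p =
      V (z n) * ∏ p ∈ PN N, (if p ∣ Q ∧ ¬ p ≤ z n then 1 - 1 / (p : ℝ) else 1) := by
  have h1 : ∏ p ∈ PQ N Q, mm z n p = ∏ p ∈ PN N, if ¬ p ∣ Q then mm z n p else 1 := by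
    unfold PQ
    rw [prod_filter]
  rw [h1, tot_eq hQ hQN, RAT.V_eq hz, ← prod_mul_distrib, ← prod_mul_distrib]
  refine prod_congr rfl fun p _ => ?_
  unfold mm aa
  by_cases h2 : p ∣ Q <;> by_cases h3 : p ≤ z n <;> simp [h2, h3]

theorem tot_le {N Q : ℕ} (hQ : 1 ≤ Q) (hQN : Q ≤ N) : V N ≤ (Nat.totient Q : ℝ) / Q := by
  have hV : V N = ∏ p ∈ PN N, (1 - 1 / (p : ℝ)) := rfl
  rw [tot_eq hQ hQN, hV]
  apply Finset.prod_le_prod
  · intro p hp
    have hp2 : (2 : ℝ) ≤ p := by exact_mod_cast ((mem_PN N p).1 hp).2.two_le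
    rw [sub_nonneg, div_le_one (by linarith)]
    linarith
  · intro p hp
    split_ifs
    · exact le_rfl
    · have : (0 : ℝ) ≤ 1 / p := by positivity
      linarith

/-- the density near `n` -/
theorem term : ∃ C : ℝ, 0 < C ∧ ∀ N Q n : ℕ, 1 ≤ Q → Q ≤ N → 3 ≤ n → n ≤ N →
    |V (z0 n) * (∏ p ∈ PN N, (if p ∣ Q ∧ ¬ p ≤ z0 n then 1 - 1 / (p : ℝ) else 1)) - 1 / Real.log n| ≤
      C * Real.log N * (1 / √(n : ℝ)) := by
  obtain ⟨hZa, hZb, hZc⟩ := T_Z
  obtain ⟨n1, hn1⟩ := eventually_atTop.1 (hZb.and (eventually_ge_atTop 4))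
  have hn14 : 4 ≤ n1 := (hn1 n1 le_rfl).2
  have hn14' : (4 : ℝ) ≤ n1 := by exact_mod_cast hn14
  refine ⟨n1 + 5, by positivity, ?_⟩
  intro N Q n hQ hQN hn hnN
  have hn3 : (3 : ℝ) ≤ n := by exact_mod_cast hn
  have hnN' : (n : ℝ) ≤ N := by exact_mod_cast hnN
  have hlogn : 1 ≤ Real.log n := by
    rw [Real.le_log_iff_exp_le (by linarith)]
    have := Real.exp_one_lt_d9
    linarith
  have hlogN : Real.log n ≤ Real.log N := Real.log_le_log (by linarith) hnN'
  have hlog : 1 ≤ Real.log N := hlogn.trans hlogN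
  have hsn : 0 < √(n : ℝ) := Real.sqrt_pos.2 (by linarith)
  obtain ⟨ha0, ha1, ha2⟩ := hZc n hn
  have hz1' : (1 : ℝ) ≤ z0 n := by exact_mod_cast ha0
  have hr1 := E1.rest (w := z0 n) ha0 hQ hQN
  have hr2 := E1.rest_le (w := z0 n) (Q := Q) (N := N)
  have hr0 : 0 ≤ ∏ p ∈ PN N, (if p ∣ Q ∧ ¬ p ≤ z0 n then 1 - 1 / (p : ℝ) else 1) := by
    apply prod_nonneg
    intro p hp
    have hp2 : (2 : ℝ) ≤ p := by exact_mod_cast ((mem_PN N p).1 hp).2.two_le
    split_ifs
    · rw [sub_nonneg, div_le_one (by linarith)]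
      linarith
    · norm_num
  set r := ∏ p ∈ PN N, (if p ∣ Q ∧ ¬ p ≤ z0 n then 1 - 1 / (p : ℝ) else 1) with hr
  have hinv0 : 0 < 1 / Real.log n := by positivity
  have hinv1 : 1 / Real.log n ≤ 1 := by
    rw [div_le_one (by linarith)]
    exact hlogn
  by_cases hc : n < n1
  · have hV1 : V (z0 n) ≤ 2 := by
      have h1 : V (z0 n) * 1 ≤ V (z0 n) * Real.log n :=
        mul_le_mul_of_nonneg_left hlogn (V_pos _).le
      have h2 : 1 / (z0 n : ℝ) ≤ 1 := by
        rw [div_le_one (by linarith)]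
        exact hz1'
      linarith
    have hV0 : 0 ≤ V (z0 n) := (V_pos _).le
    have h3 : |V (z0 n) * r - 1 / Real.log n| ≤ 2 := by
      have h4 : V (z0 n) * r ≤ 2 * 1 := mul_le_mul hV1 hr2 hr0 (by norm_num)
      have h5 : 0 ≤ V (z0 n) * r := mul_nonneg hV0 hr0
      rw [abs_le]
      constructor <;> linarith
    refine h3.trans ?_
    have h6 : √(n : ℝ) ≤ n1 := by
      have h7 : √(n : ℝ) ≤ n := by
        rw [Real.sqrt_le_left (by linarith)]
        nlinarith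
      exact h7.trans (by exact_mod_cast hc.le)
    have hs2 : √(n : ℝ) ≤ (n1 + 5) / 2 := by
      have h7 : √(n : ℝ) ≤ (n + 1) / 2 := by
        have := sq_nonneg (√(n : ℝ) - 1)
        rw [sub_sq, Real.sq_sqrt (by linarith)] at this
        linarith
      have h8 : (n : ℝ) ≤ n1 := by exact_mod_cast hc.le
      linarith
    have h8 : 2 ≤ ((n1 : ℝ) + 5) * (1 / √(n : ℝ)) := by
      rw [mul_one_div, le_div_iff₀ hsn]
      linarith
    calc (2 : ℝ) ≤ (((n1 : ℝ) + 5) * (1 / √(n : ℝ))) * 1 := by linarith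
      _ ≤ (((n1 : ℝ) + 5) * (1 / √(n : ℝ))) * Real.log N := by gcongr
      _ = ((n1 : ℝ) + 5) * Real.log N * (1 / √(n : ℝ)) := by ring
  · push Not at hc
    obtain ⟨hz1, hz4⟩ := hn1 n hc
    set v := V (z0 n) * Real.log n with hv
    have hu : 1 / (z0 n : ℝ) ≤ 1 / √(n : ℝ) := one_div_le_one_div_of_le hsn hz1
    have hu1 : 1 / (z0 n : ℝ) ≤ 1 := by
      rw [div_le_one (by linarith)]
      exact hz1'
    have hu0 : 0 < 1 / (z0 n : ℝ) := by positivity
    have e0 : 2 * Real.log N / (z0 n : ℝ) = 2 * Real.log N * (1 / z0 n) := by ring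
    rw [e0] at hr1
    set u := 1 / (z0 n : ℝ) with hud
    have hv2 : v ≤ 2 := by linarith
    have hv0 : 0 ≤ v := by linarith
    have e2 : v * r ≤ 1 + u := by
      calc v * r ≤ v * 1 := by gcongr
        _ ≤ 1 + u := by linarith
    have e3 : 1 - 4 * Real.log N * u ≤ v * r := by
      have h7 : v * (1 - 2 * Real.log N * u) ≤ v * r := mul_le_mul_of_nonneg_left hr1 hv0
      have h8 : v * (2 * Real.log N * u) ≤ 2 * (2 * Real.log N * u) := by gcongr
      nlinarith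
    have e4 : |v * r - 1| ≤ 5 * Real.log N * u := by
      have h9 : u ≤ Real.log N * u := le_mul_of_one_le_left hu0.le hlog
      rw [abs_le]
      constructor <;> nlinarith
    have e5 : V (z0 n) * r - 1 / Real.log n = (v * r - 1) * (1 / Real.log n) := by
      rw [hv]
      field_simp
    rw [e5, abs_mul, abs_of_pos hinv0]
    calc |v * r - 1| * (1 / Real.log n) ≤ (5 * Real.log N * u) * 1 := by gcongr
      _ ≤ (((n1 : ℝ) + 5) * Real.log N * (1 / √(n : ℝ))) * 1 := by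
        gcongr
        linarith
      _ = _ := mul_one _

theorem sum_sqrt (Q A J : ℕ) (hQ : 1 ≤ Q) :
    ∑ j ∈ range J, i3 (A + j * Q) * (1 / √((A + j * Q : ℕ) : ℝ)) ≤ 1 + 2 * √(J : ℝ) := by
  rcases J with _ | m
  · simp
  rw [sum_range_succ', add_comm]
  apply add_le_add
  · unfold i3
    split_ifs with h
    · rw [one_mul]
      have h2 : (1 : ℝ) ≤ ((A + 0 * Q : ℕ) : ℝ) := by exact_mod_cast (by omega : 1 ≤ A + 0 * Q)
      have h1 : 1 ≤ √((A + 0 * Q : ℕ) : ℝ) := Real.one_le_sqrt.2 h2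
      rw [div_le_one (by linarith)]
      exact h1
    · rw [zero_mul]
      norm_num
  · have h1 : ∑ k ∈ range m, i3 (A + (k + 1) * Q) * (1 / √((A + (k + 1) * Q : ℕ) : ℝ)) ≤
        ∑ k ∈ range m, 1 / √((k + 1 : ℕ) : ℝ) := by
      refine sum_le_sum fun k _ => ?_
      have h2 : 1 / √((A + (k + 1) * Q : ℕ) : ℝ) ≤ 1 / √((k + 1 : ℕ) : ℝ) := by
        apply one_div_le_one_div_of_le
        · apply Real.sqrt_pos.2
          exact_mod_cast Nat.succ_pos k
        · apply Real.sqrt_le_sqrt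
          have : k + 1 ≤ A + (k + 1) * Q := by nlinarith
          exact_mod_cast this
      have h3 : 0 ≤ 1 / √((A + (k + 1) * Q : ℕ) : ℝ) := by positivity
      calc i3 (A + (k + 1) * Q) * (1 / √((A + (k + 1) * Q : ℕ) : ℝ))
          ≤ 1 * (1 / √((A + (k + 1) * Q : ℕ) : ℝ)) := mul_le_mul_of_nonneg_right (i3_le_one _) h3
        _ ≤ _ := by rw [one_mul]; exact h2
    refine h1.trans ?_
    have h4 := E3.sqrt_sum m
    have h5 : ∑ k ∈ range m, 1 / √((k + 1 : ℕ) : ℝ) = ∑ n ∈ Ico 1 (m + 1), 1 / √(n : ℝ) := by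
      rw [sum_Ico_eq_sum_range]
      refine sum_congr (by simp) fun k _ => by rw [add_comm]
    rw [h5]
    refine h4.trans ?_
    gcongr
    exact_mod_cast Nat.le_succ m

/-- `1 / log` extended to the left of `2` -/
noncomputable def gg (t : ℝ) : ℝ := 1 / Real.log (max t 2)

theorem gg_anti : Antitone gg := by
  intro s t hst
  unfold gg
  have h1 : Real.log (max s 2) ≤ Real.log (max t 2) :=
    Real.log_le_log (by positivity) (max_le_max hst le_rfl)
  have h2 : 0 < Real.log (max s 2) := Real.log_pos (lt_of_lt_of_le (by norm_num) (le_max_right _ _))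
  exact one_div_le_one_div_of_le h2 h1

theorem gg_nonneg (t : ℝ) : 0 ≤ gg t := by
  unfold gg
  have h2 : 0 < Real.log (max t 2) := Real.log_pos (lt_of_lt_of_le (by norm_num) (le_max_right _ _))
  positivity

theorem gg_le (t : ℝ) : gg t ≤ 3 / 2 := by
  unfold gg
  have h0 := Real.log_two_gt_d9
  have h1 : Real.log 2 ≤ Real.log (max t 2) := Real.log_le_log (by norm_num) (le_max_right _ _)
  rw [div_le_iff₀ (by linarith)]
  linarith

theorem gg_ii (a b : ℝ) : IntervalIntegrable gg volume a b := gg_anti.intervalIntegrable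

theorem gg_int (a b : ℝ) : |∫ t in a..b, gg t| ≤ 3 / 2 * |b - a| := by
  have := intervalIntegral.norm_integral_le_of_norm_le_const (a := a) (b := b) (f := gg) (C := 3 / 2)
    (fun t _ => by
      rw [Real.norm_eq_abs, abs_of_nonneg (gg_nonneg t)]
      exact gg_le t)
  simpa [Real.norm_eq_abs] using this

theorem li_eq {x : ℝ} (hx : 2 ≤ x) : li x = ∫ t in (2 : ℝ)..x, gg t := by
  unfold li
  apply intervalIntegral.integral_congr
  intro t ht
  rw [Set.uIcc_of_le hx] at ht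
  simp only [gg]
  rw [max_eq_left ht.1]

theorem sum_gg (Q A J N : ℕ) (hQ : 1 ≤ Q) (hA : A < Q) (hN : 2 ≤ N) (h1 : N ≤ A + J * Q)
    (h2 : A + J * Q ≤ N + Q) :
    |∑ j ∈ range J, gg ((A + j * Q : ℕ) : ℝ) - li N / Q| ≤ 15 / 2 := by
  have hQ0 : (0 : ℝ) < Q := by exact_mod_cast hQ
  set h : ℝ → ℝ := fun s => gg ((A : ℝ) + Q * s) with hh
  have hanti : Antitone h := by
    intro s t hst
    apply gg_anti
    have : (Q : ℝ) * s ≤ Q * t := by gcongr
    linarith
  have e1 : ∑ j ∈ range J, gg ((A + j * Q : ℕ) : ℝ) = ∑ j ∈ range J, h (0 + (j : ℝ)) := by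
    refine sum_congr rfl fun j _ => ?_
    simp only [hh]
    congr 1
    push_cast
    ring
  have l1 : ∫ x in (0 : ℝ)..0 + (J : ℕ), h x ≤ ∑ j ∈ range J, h (0 + (j : ℝ)) :=
    AntitoneOn.integral_le_sum (hanti.antitoneOn _)
  have l2 : ∑ j ∈ range J, h (0 + ((j + 1 : ℕ) : ℝ)) ≤ ∫ x in (0 : ℝ)..0 + (J : ℕ), h x :=
    AntitoneOn.sum_le_integral (hanti.antitoneOn _)
  have l3 : ∑ j ∈ range J, h (0 + (j : ℝ)) + h (0 + (J : ℝ)) =
      ∑ j ∈ range J, h (0 + ((j + 1 : ℕ) : ℝ)) + h (0 + ((0 : ℕ) : ℝ)) := by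
    rw [← sum_range_succ (fun j : ℕ => h (0 + (j : ℝ))), sum_range_succ' (fun j : ℕ => h (0 + (j : ℝ)))]
  have l4 : 0 ≤ h (0 + (J : ℝ)) := gg_nonneg _
  have l5 : h (0 + ((0 : ℕ) : ℝ)) ≤ 3 / 2 := gg_le _
  rw [zero_add (J : ℝ)] at l1 l2
  have e2 : ∫ x in (0 : ℝ)..(J : ℝ), h x = (Q : ℝ)⁻¹ * ∫ t in (A : ℝ)..(A + Q * J : ℝ), gg t := by
    simp only [hh]
    rw [intervalIntegral.integral_comp_add_mul gg hQ0.ne' (A : ℝ), mul_zero, add_zero, smul_eq_mul]
  have e3 : ∫ t in (A : ℝ)..(A + Q * J : ℝ), gg t =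
      li N + (∫ t in (N : ℝ)..(A + Q * J : ℝ), gg t) - ∫ t in (2 : ℝ)..(A : ℝ), gg t := by
    rw [li_eq (by exact_mod_cast hN), intervalIntegral.integral_add_adjacent_intervals (gg_ii _ _) (gg_ii _ _),
      eq_sub_iff_add_eq, add_comm, intervalIntegral.integral_add_adjacent_intervals (gg_ii _ _) (gg_ii _ _)]
  have b1 := gg_int (N : ℝ) (A + Q * J : ℝ)
  have b2 := gg_int (2 : ℝ) (A : ℝ)
  have c1 : (N : ℝ) ≤ A + Q * J := by
    have : N ≤ A + Q * J := by
      rw [mul_comm Q]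
      exact h1
    exact_mod_cast this
  have c2 : (A : ℝ) + Q * J ≤ N + Q := by
    have : A + Q * J ≤ N + Q := by
      rw [mul_comm Q]
      exact h2
    exact_mod_cast this
  have c3 : (A : ℝ) ≤ Q := by exact_mod_cast hA.le
  have c4 : (1 : ℝ) ≤ Q := by exact_mod_cast hQ
  have c5 : (0 : ℝ) ≤ A := by positivity
  rw [abs_of_nonneg (by linarith : (0 : ℝ) ≤ (A : ℝ) + Q * J - N)] at b1
  have c6 : |(A : ℝ) - 2| ≤ 2 * Q := by
    rw [abs_le]
    constructor <;> linarith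
  have b3 : |(∫ x in (0 : ℝ)..(J : ℝ), h x) - li N / Q| ≤ 9 / 2 := by
    have e4 : (∫ x in (0 : ℝ)..(J : ℝ), h x) - li N / Q =
        (Q : ℝ)⁻¹ * ((∫ t in (N : ℝ)..(A + Q * J : ℝ), gg t) - ∫ t in (2 : ℝ)..(A : ℝ), gg t) := by
      rw [e2, e3]
      ring
    rw [e4, abs_mul, abs_of_pos (inv_pos.2 hQ0), inv_mul_le_iff₀ hQ0]
    refine (abs_sub _ _).trans ?_
    nlinarith
  have l6 : ∑ j ∈ range J, h (0 + (j : ℝ)) ≤ (∫ x in (0 : ℝ)..(J : ℝ), h x) + 3 / 2 := by
    calc ∑ j ∈ range J, h (0 + (j : ℝ)) ≤ ∑ j ∈ range J, h (0 + (j : ℝ)) + h (0 + (J : ℝ)) :=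
          le_add_of_nonneg_right l4
      _ = _ := l3
      _ ≤ _ := add_le_add l2 l5
  rw [e1]
  rw [abs_le] at b3 ⊢
  constructor <;> linarith [b3.1, b3.2]

/-- **The expected number of random primes in a class.** -/
theorem mean : ∃ C : ℝ, 0 < C ∧ ∀ᶠ N : ℕ in atTop, ∀ Q A : ℕ, 1 ≤ Q → Q ≤ N → A < Q →
    |CE z0 Q A ((N + Q - A) / Q) (PQ N Q) - li N / Nat.totient Q| ≤
      C * Real.log N ^ 2 * √(((N + Q - A) / Q : ℕ) : ℝ) := by
  obtain ⟨C, hC, hterm⟩ := term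
  refine ⟨2 * (3 * C + 12), by positivity, ?_⟩
  filter_upwards [E3.V_inv_le, eventually_ge_atTop 3] with N hV hN3 Q A hQ hQN hA
  have hN3' : (3 : ℝ) ≤ N := by exact_mod_cast hN3
  have hQ0 : (0 : ℝ) < Q := by exact_mod_cast hQ
  have hφ0 : (0 : ℝ) < Nat.totient Q := by exact_mod_cast Nat.totient_pos.2 hQ
  have hlog : 1 ≤ Real.log N := by
    rw [Real.le_log_iff_exp_le (by linarith)]
    have := Real.exp_one_lt_d9
    linarith
  set J := (N + Q - A) / Q with hJ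
  have hJ1 : 1 ≤ J := by
    rw [hJ, Nat.le_div_iff_mul_le hQ]
    omega
  have hJ1' : (1 : ℝ) ≤ J := by exact_mod_cast hJ1
  have hsJ : 1 ≤ √(J : ℝ) := Real.one_le_sqrt.2 hJ1'
  have hJle : J * Q ≤ N + Q - A := Nat.div_mul_le_self _ _
  have hJlt : N + Q - A < (J + 1) * Q := by
    rw [← Nat.div_lt_iff_lt_mul hQ]
    exact Nat.lt_succ_self _
  have hJl : N ≤ A + J * Q := by
    have : (J + 1) * Q = J * Q + Q := by ring
    omega
  have hJu : A + J * Q ≤ N + Q := by omega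
  have hz : ∀ n ≤ N, z0 n ≤ N := fun n hn => (z0_mono hn).trans (T_Z.1 N)
  -- the elements of the progression are at most `N`
  have hnN : ∀ j ∈ range J, A + j * Q ≤ N := by
    intro j hj
    have h1 := mem_range.1 hj
    have h2 : (j + 1) * Q ≤ J * Q := Nat.mul_le_mul_right Q h1
    have h3 : (j + 1) * Q = j * Q + Q := by ring
    omega
  set κ : ℝ := (Nat.totient Q : ℝ) / Q with hκ
  have hκ0 : 0 < κ := by positivity
  set W : ℕ → ℝ := fun n => V (z0 n) *
    (∏ p ∈ PN N, (if p ∣ Q ∧ ¬ p ≤ z0 n then 1 - 1 / (p : ℝ) else 1)) with hW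
  have s1 : κ * CE z0 Q A J (PQ N Q) = ∑ j ∈ range J, i3 (A + j * Q) * W (A + j * Q) := by
    unfold CE
    rw [mul_sum]
    refine sum_congr rfl fun j hj => ?_
    rw [mul_left_comm, hκ, V_mul hQ hQN (hz _ (hnN j hj))]
  have s2 : |∑ j ∈ range J, i3 (A + j * Q) * W (A + j * Q) -
      ∑ j ∈ range J, i3 (A + j * Q) * (1 / Real.log ((A + j * Q : ℕ) : ℝ))| ≤
      C * Real.log N * (1 + 2 * √(J : ℝ)) := by
    rw [← sum_sub_distrib]
    refine (abs_sum_le_sum_abs _ _).trans ?_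
    calc ∑ j ∈ range J, |i3 (A + j * Q) * W (A + j * Q) -
          i3 (A + j * Q) * (1 / Real.log ((A + j * Q : ℕ) : ℝ))|
        ≤ ∑ j ∈ range J, C * Real.log N * (i3 (A + j * Q) * (1 / √((A + j * Q : ℕ) : ℝ))) := by
          refine sum_le_sum fun j hj => ?_
          by_cases h3 : 3 ≤ A + j * Q
          · have := hterm N Q (A + j * Q) hQ hQN h3 (hnN j hj)
            unfold i3
            rw [if_pos h3, one_mul, one_mul, one_mul]
            exact this
          · unfold i3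
            rw [if_neg h3]
            simp
      _ = C * Real.log N * ∑ j ∈ range J, i3 (A + j * Q) * (1 / √((A + j * Q : ℕ) : ℝ)) := by
          rw [mul_sum]
      _ ≤ _ := mul_le_mul_of_nonneg_left (sum_sqrt Q A J hQ) (by positivity)
  have s3 : |∑ j ∈ range J, i3 (A + j * Q) * (1 / Real.log ((A + j * Q : ℕ) : ℝ)) -
      ∑ j ∈ range J, gg ((A + j * Q : ℕ) : ℝ)| ≤ 9 / 2 := by
    rw [← sum_sub_distrib]
    refine (abs_sum_le_sum_abs _ _).trans ?_
    calc ∑ j ∈ range J, |i3 (A + j * Q) * (1 / Real.log ((A + j * Q : ℕ) : ℝ)) - gg ((A + j * Q : ℕ) : ℝ)|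
        ≤ ∑ j ∈ range J, (if j < 3 then 3 / 2 else (0 : ℝ)) := by
          refine sum_le_sum fun j _ => ?_
          by_cases h3 : 3 ≤ A + j * Q
          · have h4 : i3 (A + j * Q) * (1 / Real.log ((A + j * Q : ℕ) : ℝ)) - gg ((A + j * Q : ℕ) : ℝ) = 0 := by
              unfold i3 gg
              rw [if_pos h3, one_mul, max_eq_left, sub_self]
              exact_mod_cast (by omega : 2 ≤ A + j * Q)
            rw [h4, abs_zero]
            split_ifs <;> norm_num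
          · have hj3 : j < 3 := by
              have : j ≤ A + j * Q := by nlinarith
              omega
            unfold i3
            rw [if_neg h3, if_pos hj3, zero_mul, zero_sub, abs_neg, abs_of_nonneg (gg_nonneg _)]
            exact gg_le _
      _ = ∑ j ∈ (range J).filter (fun j => j < 3), (3 / 2 : ℝ) := by rw [sum_filter]
      _ ≤ ∑ j ∈ range 3, (3 / 2 : ℝ) := by
          apply sum_le_sum_of_subset_of_nonneg
          · intro j hj
            rw [mem_filter] at hj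
            exact mem_range.2 hj.2
          · intro _ _ _
            norm_num
      _ = 9 / 2 := by
          rw [sum_const, card_range]
          norm_num
  have s4 := sum_gg Q A J N hQ hA (by omega) hJl hJu
  have s5 : |κ * CE z0 Q A J (PQ N Q) - li N / Q| ≤ C * Real.log N * (1 + 2 * √(J : ℝ)) + 12 := by
    rw [s1]
    have t1 := abs_sub_le (∑ j ∈ range J, i3 (A + j * Q) * W (A + j * Q))
      (∑ j ∈ range J, i3 (A + j * Q) * (1 / Real.log ((A + j * Q : ℕ) : ℝ))) (li N / Q)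
    have t2 := abs_sub_le (∑ j ∈ range J, i3 (A + j * Q) * (1 / Real.log ((A + j * Q : ℕ) : ℝ)))
      (∑ j ∈ range J, gg ((A + j * Q : ℕ) : ℝ)) (li N / Q)
    linarith
  have hκinv : κ⁻¹ ≤ 2 * Real.log N := by
    refine le_trans ?_ hV
    exact inv_anti₀ (V_pos N) (tot_le hQ hQN)
  have s6 : CE z0 Q A J (PQ N Q) - li N / Nat.totient Q =
      κ⁻¹ * (κ * CE z0 Q A J (PQ N Q) - li N / Q) := by
    rw [hκ]
    field_simp
  rw [s6, abs_mul, abs_of_pos (inv_pos.2 hκ0)]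
  have s7 : C * Real.log N * (1 + 2 * √(J : ℝ)) + 12 ≤ (3 * C + 12) * (Real.log N * √(J : ℝ)) := by
    have u1 : 1 ≤ Real.log N * √(J : ℝ) := by nlinarith
    have u2 : Real.log N ≤ Real.log N * √(J : ℝ) := le_mul_of_one_le_right (by linarith) hsJ
    nlinarith
  calc κ⁻¹ * |κ * CE z0 Q A J (PQ N Q) - li N / Q|
      ≤ (2 * Real.log N) * ((3 * C + 12) * (Real.log N * √(J : ℝ))) :=
        mul_le_mul hκinv (s5.trans s7) (abs_nonneg _) (by linarith)
    _ = _ := by ring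

end Pool.Agent.H535.BF
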