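import Pool.Agent.H535.BF.FL
import Pool.Agent.H535.BF.Mean

set_option autoImplicit false

/-!
# The number of random primes in all allowed classes
-/

open Finset MeasureTheory ProbabilityTheory Filter Topology

namespace Pool.Agent.H535.BF

open Pool.Agent.T2H31.HV Pool.Agent.T2H32.BF

theorem core {Ω : Type} [MeasurableSpace Ω] {P : Measure Ω} {a : ℕ → Ω → ℕ} (hM : Model P a) :
    ∀ᵐ ω ∂P, ∀ η : ℝ, 0 < η → ∀ᶠ N : ℕ in atTop, ∀ Q : ℕ, 1 ≤ Q → Q ≤ N →
      ∀ A ∈ Cl Q (fun q => a q ω),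
        |piR z0 (fun q => a q ω) N Q A - li N / Nat.totient Q| ≤ (N : ℝ) ^ η * √((N : ℝ) / Q) := by
  have h1 : ∀ᵐ ω ∂P, ∀ m : ℕ, ∀ᶠ N : ℕ in atTop, ∀ Q A : ℕ, 1 ≤ Q → Q ≤ N → A < Q →
      |CF z0 Q A ((N + Q - A) / Q) (PQ N Q) (fun q => a q ω) - CE z0 Q A ((N + Q - A) / Q) (PQ N Q)| ≤
        √(((N + Q - A) / Q : ℕ) : ℝ) * (N : ℝ) ^ (1 / ((m : ℝ) + 1)) := by
    rw [ae_all_iff]
    intro m
    exact FL hM z0_mono (1 / ((m : ℝ) + 1)) (by positivity)
  obtain ⟨C, hC, hmean⟩ := mean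
  filter_upwards [h1] with ω hω η hη
  obtain ⟨m, hm⟩ := exists_nat_one_div_lt (show 0 < η / 2 by linarith)
  have hT : ∀ᶠ N : ℕ in atTop, √2 * ((N : ℝ) ^ (η / 2) + C * Real.log N ^ 2) ≤ (N : ℝ) ^ η := by
    have h2 : ∀ᶠ N : ℕ in atTop, 4 ≤ (N : ℝ) ^ (η / 2) :=
      ((tendsto_rpow_atTop (by linarith : 0 < η / 2)).comp tendsto_natCast_atTop_atTop).eventually_ge_atTop 4
    have h3 : ∀ᶠ N : ℕ in atTop, C * Real.log N ^ 2 ≤ (N : ℝ) ^ (η / 2) := by
      have h4 := (isLittleO_log_rpow_atTop (show 0 < η / 4 by linarith)).bound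
        (show 0 < (1 / √C) by positivity)
      filter_upwards [tendsto_natCast_atTop_atTop.eventually h4, eventually_ge_atTop 1] with N hN hN1
      have hN1' : (1 : ℝ) ≤ N := by exact_mod_cast hN1
      rw [Real.norm_of_nonneg (Real.log_nonneg hN1'), Real.norm_of_nonneg (by positivity)] at hN
      have h5 : Real.log N ^ 2 ≤ (1 / √C * (N : ℝ) ^ (η / 4)) ^ 2 :=
        pow_le_pow_left₀ (Real.log_nonneg hN1') hN 2
      have h6 : ((N : ℝ) ^ (η / 4)) ^ 2 = (N : ℝ) ^ (η / 2) := by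
        rw [← Real.rpow_natCast, ← Real.rpow_mul (by linarith)]
        congr 1
        push_cast
        ring
      rw [mul_pow, h6, div_pow, one_pow, Real.sq_sqrt hC.le] at h5
      calc C * Real.log N ^ 2 ≤ C * (1 / C * (N : ℝ) ^ (η / 2)) := by gcongr
        _ = _ := by field_simp
    filter_upwards [h2, h3, eventually_ge_atTop 1] with N a2 a3 a4
    have hN1' : (1 : ℝ) ≤ N := by exact_mod_cast a4
    have h5 : √2 ≤ 2 := by
      rw [Real.sqrt_le_left (by norm_num)]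
      norm_num
    have h6 : (N : ℝ) ^ η = (N : ℝ) ^ (η / 2) * (N : ℝ) ^ (η / 2) := by
      rw [← Real.rpow_add (by linarith)]
      congr 1
      ring
    rw [h6]
    calc √2 * ((N : ℝ) ^ (η / 2) + C * Real.log N ^ 2)
        ≤ 2 * ((N : ℝ) ^ (η / 2) + (N : ℝ) ^ (η / 2)) := by gcongr
      _ = 4 * (N : ℝ) ^ (η / 2) := by ring
      _ ≤ _ := by gcongr
  filter_upwards [hω m, hmean, hT, eventually_ge_atTop 1] with N b1 b2 b3 b4 Q hQ hQN A hA
  have hAQ : A < Q := mem_range.1 (mem_filter.1 hA).1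
  have hN1 : (1 : ℝ) ≤ N := by exact_mod_cast b4
  have hQ0 : (0 : ℝ) < Q := by exact_mod_cast hQ
  rw [piR_eq T_Z.1 _ N Q A hQ hQN hA]
  have c1 := b1 Q A hQ hQN hAQ
  have c2 := b2 Q A hQ hQN hAQ
  set J := (N + Q - A) / Q with hJ
  have hJle : J * Q ≤ N + Q - A := Nat.div_mul_le_self _ _
  have hJ2 : (J : ℝ) ≤ 2 * (N / Q) := by
    rw [← mul_div_assoc, le_div_iff₀ hQ0]
    have : J * Q ≤ 2 * N := by omega
    exact_mod_cast this
  have hsJ : √(J : ℝ) ≤ √2 * √((N : ℝ) / Q) := by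
    rw [← Real.sqrt_mul (by norm_num)]
    exact Real.sqrt_le_sqrt hJ2
  have hpow : (N : ℝ) ^ (1 / ((m : ℝ) + 1)) ≤ (N : ℝ) ^ (η / 2) :=
    Real.rpow_le_rpow_of_exponent_le hN1 hm.le
  have t := abs_sub_le (CF z0 Q A J (PQ N Q) (fun q => a q ω)) (CE z0 Q A J (PQ N Q))
    (li N / Nat.totient Q)
  calc |CF z0 Q A J (PQ N Q) (fun q => a q ω) - li N / Nat.totient Q|
      ≤ √(J : ℝ) * (N : ℝ) ^ (1 / ((m : ℝ) + 1)) + C * Real.log N ^ 2 * √(J : ℝ) := by linarith
    _ ≤ √(J : ℝ) * (N : ℝ) ^ (η / 2) + C * Real.log N ^ 2 * √(J : ℝ) := by gcongr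
    _ = √(J : ℝ) * ((N : ℝ) ^ (η / 2) + C * Real.log N ^ 2) := by ring
    _ ≤ (√2 * √((N : ℝ) / Q)) * ((N : ℝ) ^ (η / 2) + C * Real.log N ^ 2) := by gcongr
    _ = (√2 * ((N : ℝ) ^ (η / 2) + C * Real.log N ^ 2)) * √((N : ℝ) / Q) := by ring
    _ ≤ _ := by gcongr

theorem piR_nonneg (z : ℕ → ℕ) (b : ℕ → ℕ) (N Q A : ℕ) : 0 ≤ piR z b N Q A := by
  unfold piR
  positivity

theorem piR_le (z : ℕ → ℕ) (b : ℕ → ℕ) (N Q A : ℕ) : piR z b N Q A ≤ N := by
  classical
  unfold piR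
  have h := card_filter_le (Icc 1 N) (fun n => n ∈ R z b ∧ n % Q = A)
  rw [Nat.card_Icc, Nat.add_sub_cancel] at h
  exact_mod_cast h

theorem piR_le_two (z : ℕ → ℕ) (b : ℕ → ℕ) (N Q A : ℕ) (hN : N ≤ Q) : piR z b N Q A ≤ 2 := by
  classical
  unfold piR
  have h : (Icc 1 N).filter (fun n => n ∈ R z b ∧ n % Q = A) ⊆ {A, Q} := by
    intro n hn
    rw [mem_filter, Finset.mem_Icc] at hn
    rw [mem_insert, mem_singleton]
    rcases Nat.lt_or_ge n Q with h1 | h1
    · left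
      rw [← hn.2.2, Nat.mod_eq_of_lt h1]
    · right
      omega
  have h2 := (card_le_card h).trans (card_le_two (a := A) (b := Q))
  exact_mod_cast h2

theorem li_nonneg {x : ℝ} (hx : 2 ≤ x) : 0 ≤ li x := by
  rw [li_eq hx]
  exact intervalIntegral.integral_nonneg hx fun t _ => gg_nonneg t

theorem li_sub {x y : ℝ} (hx : 2 ≤ x) (hy : 2 ≤ y) : li y - li x = ∫ t in x..y, gg t := by
  rw [li_eq hx, li_eq hy, sub_eq_iff_eq_add, add_comm,
    intervalIntegral.integral_add_adjacent_intervals (gg_ii _ _) (gg_ii _ _)]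

theorem li_mono {x y : ℝ} (hx : 2 ≤ x) (hxy : x ≤ y) : li x ≤ li y := by
  have h := li_sub hx (hx.trans hxy)
  have h2 : 0 ≤ ∫ t in x..y, gg t := intervalIntegral.integral_nonneg hxy fun t _ => gg_nonneg t
  linarith

theorem li_lip {x y : ℝ} (hx : 2 ≤ x) (hxy : x ≤ y) : li y - li x ≤ 3 / 2 * (y - x) := by
  rw [li_sub hx (hx.trans hxy)]
  have h := gg_int x y
  rw [abs_of_nonneg (by linarith : (0 : ℝ) ≤ y - x)] at h
  exact (le_abs_self _).trans h

theorem li_le {x : ℝ} (hx : 2 ≤ x) : li x ≤ 3 / 2 * x := by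
  have h := li_lip le_rfl hx
  have h2 : li 2 = 0 := by
    unfold li
    simp
  linarith

/-- from integers to all reals -/
theorem ext (b : ℕ → ℕ)
    (h : ∀ η : ℝ, 0 < η → ∀ᶠ N : ℕ in atTop, ∀ Q : ℕ, 1 ≤ Q → Q ≤ N → ∀ A ∈ Cl Q b,
        |piR z0 b N Q A - li N / Nat.totient Q| ≤ (N : ℝ) ^ η * √((N : ℝ) / Q)) (ε : ℝ) (hε : 0 < ε) :
    ∃ C : ℝ, 0 < C ∧ ∀ x y : ℝ, ∀ d l : ℕ, 1 ≤ d → (d : ℝ) ≤ x → 2 ≤ y → y ≤ x → l ∈ Cl d b →
      |piR z0 b ⌊y⌋₊ d l - li y / Nat.totient d| ≤ C * x ^ ε * √(x / d) := by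
  obtain ⟨N0, hN0⟩ := eventually_atTop.1 (h ε hε)
  refine ⟨3 * N0 + 6, by positivity, ?_⟩
  intro x y d l hd hdx hy hyx hl
  set N := ⌊y⌋₊ with hN
  have hy0 : 0 ≤ y := by linarith
  have hNy : (N : ℝ) ≤ y := Nat.floor_le hy0
  have hyN : y < N + 1 := Nat.lt_floor_add_one y
  have hN2 : 2 ≤ N := Nat.le_floor (by exact_mod_cast hy)
  have hN2' : (2 : ℝ) ≤ N := by exact_mod_cast hN2
  have hx1 : 1 ≤ x := by linarith
  have hd0 : (0 : ℝ) < d := by exact_mod_cast hd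
  have hφ : (1 : ℝ) ≤ Nat.totient d := by exact_mod_cast Nat.totient_pos.2 hd
  have hφ0 : (0 : ℝ) < Nat.totient d := by linarith
  have hxε : 1 ≤ x ^ ε := Real.one_le_rpow hx1 hε.le
  have hs1 : 1 ≤ √(x / d) := by
    rw [Real.one_le_sqrt, le_div_iff₀ hd0, one_mul]
    exact hdx
  set W := x ^ ε * √(x / d) with hW
  have hW1 : 1 ≤ W := by
    rw [hW]
    exact one_le_mul_of_one_le_of_one_le hxε hs1
  have hWx : x ^ ε ≤ W := le_mul_of_one_le_right (by linarith) hs1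
  have hp0 := piR_nonneg z0 b N d l
  have hpN := piR_le z0 b N d l
  have hli0 := li_nonneg hy
  have hlid : li y / Nat.totient d ≤ li y := div_le_self hli0 hφ
  have hlid0 : 0 ≤ li y / Nat.totient d := div_nonneg hli0 hφ0.le
  have hgoal : (3 * (N0 : ℝ) + 6) * x ^ ε * √(x / d) = (3 * N0 + 6) * W := by
    rw [hW]
    ring
  rw [hgoal]
  rcases Nat.lt_or_ge N N0 with hc | hc
  · have hc' : (N : ℝ) + 1 ≤ N0 := by exact_mod_cast hc
    have h1 := li_le hy
    have h2 : |piR z0 b N d l - li y / Nat.totient d| ≤ 3 * N0 := by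
      rw [abs_le]
      constructor <;> linarith
    have : (0 : ℝ) ≤ N0 := by positivity
    nlinarith
  · have hN00 : (0 : ℝ) ≤ N0 := by positivity
    have key : |piR z0 b N d l - li y / Nat.totient d| ≤ 6 * W := by
      rcases Nat.lt_or_ge N d with hcd | hcd
      · -- `d` is larger than `y`
        have h1 := piR_le_two z0 b N d l hcd.le
        have hd2 : (2 : ℝ) ≤ d := by
          have : (N : ℝ) ≤ d := by exact_mod_cast hcd.le
          linarith
        have h2 := hN0 d (by omega) d hd le_rfl l hl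
        rw [div_self hd0.ne', Real.sqrt_one, mul_one] at h2
        have h3 := piR_le_two z0 b d d l le_rfl
        have h4 : (d : ℝ) ^ ε ≤ x ^ ε := Real.rpow_le_rpow hd0.le hdx hε.le
        have h5 : li y ≤ li d := by
          apply li_mono hy
          have : (N : ℝ) + 1 ≤ d := by exact_mod_cast hcd
          linarith
        have h6 : li y / Nat.totient d ≤ li d / Nat.totient d := by gcongr
        have h7 := (abs_le.1 h2).1
        rw [abs_le]
        constructor <;> linarith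
      · have h2 := hN0 N hc d hd hcd l hl
        have h3 : (N : ℝ) ^ ε ≤ x ^ ε := Real.rpow_le_rpow (by linarith) (by linarith) hε.le
        have h4 : √((N : ℝ) / d) ≤ √(x / d) := by
          apply Real.sqrt_le_sqrt
          gcongr
          linarith
        have h5 : (N : ℝ) ^ ε * √((N : ℝ) / d) ≤ W := by
          rw [hW]
          gcongr
        have h6 : |li y / Nat.totient d - li N / Nat.totient d| ≤ 3 / 2 := by
          rw [← sub_div, abs_div, abs_of_pos hφ0, div_le_iff₀ hφ0]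
          have h7 := li_lip hN2' hNy
          have h8 := li_mono hN2' hNy
          rw [abs_of_nonneg (by linarith)]
          nlinarith
        have t := abs_sub_le (piR z0 b N d l) (li N / Nat.totient d) (li y / Nat.totient d)
        rw [abs_sub_comm (li N / Nat.totient d)] at t
        linarith
    nlinarith

end Pool.Agent.H535.BF
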