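import Pool.Agent.H535.BF.Low

set_option autoImplicit false

/-!
# The lower bound for the sum over the moduli
-/

open Finset MeasureTheory ProbabilityTheory Filter Topology

namespace Pool.Agent.H535.BF

open Pool.Agent.T2H31.HV Pool.Agent.T2H32.BF

theorem ehlow (b : ℕ → ℕ) (hcard : ∀ Q : ℕ, 1 ≤ Q → (Cl Q b).card = Nat.totient Q)
    (h : ∀ ε : ℝ, 0 < ε → ∀ᶠ X : ℝ in atTop, ∀ Q : ℕ, X ^ (1 / 2 + ε) < Q → (Q : ℝ) < X →
      ∃ l ∈ Cl Q b, ∃ y, 2 ≤ y ∧ y ≤ X ∧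
        1 / 8 * √(X / (Q * Real.log X)) ≤ |piR z0 b ⌊y⌋₊ Q l - li y / Nat.totient Q|)
    (α : ℝ) (hα : 1 / 2 < α) (hα1 : α < 1) :
    ∀ᶠ x : ℝ in atTop, ∃ (l : ℕ → ℕ) (y : ℕ → ℝ), (∀ d, 1 ≤ d → l d ∈ Cl d b) ∧
      (∀ d, 2 ≤ y d ∧ y d ≤ x) ∧ x ^ ((1 + α) / 2) / (32 * √(Real.log x)) ≤
        ∑ d ∈ Icc 1 ⌊x ^ α⌋₊, |piR z0 b ⌊y d⌋₊ d (l d) - li (y d) / Nat.totient d| := by
  set ε : ℝ := (α - 1 / 2) / 2 with hε
  have hε0 : 0 < ε := by rw [hε]; linarith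
  have hbig : ∀ᶠ x : ℝ in atTop, 4 ≤ x ^ ε := (tendsto_rpow_atTop hε0).eventually_ge_atTop 4
  have hbig2 : ∀ᶠ x : ℝ in atTop, 2 ≤ x ^ (1 - α) :=
    (tendsto_rpow_atTop (by linarith : 0 < 1 - α)).eventually_ge_atTop 2
  filter_upwards [h ε hε0, hbig, hbig2, eventually_ge_atTop 4, Real.tendsto_log_atTop.eventually_gt_atTop 1]
    with x hx h4 h5 hx4 hl1
  have hx0 : 0 < x := by linarith
  set D := ⌊x ^ α⌋₊ with hD
  have hDx : (D : ℝ) ≤ x ^ α := Nat.floor_le (by positivity)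
  have hxD : x ^ α < D + 1 := Nat.lt_floor_add_one _
  have e1 : x ^ α = x ^ (1 / 2 + ε) * x ^ ε := by
    rw [← Real.rpow_add hx0]
    congr 1
    rw [hε]
    ring
  have hmid : 2 ≤ x ^ (1 / 2 + ε) := by
    calc (2 : ℝ) = 4 ^ (1 / 2 : ℝ) := by
          rw [show (4 : ℝ) = 2 ^ (2 : ℝ) by norm_num, ← Real.rpow_mul (by norm_num)]
          norm_num
      _ ≤ x ^ (1 / 2 : ℝ) := Real.rpow_le_rpow (by norm_num) hx4 (by norm_num)
      _ ≤ _ := Real.rpow_le_rpow_of_exponent_le (by linarith) (by linarith)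
  have hD8 : 4 * x ^ (1 / 2 + ε) ≤ x ^ α := by
    rw [e1]
    nlinarith
  have hD1 : (7 : ℝ) < D := by linarith
  have hD1' : 7 < D := by exact_mod_cast hD1
  have hDlx : (D : ℝ) < x := by
    have : x = x ^ α * x ^ (1 - α) := by
      rw [← Real.rpow_add hx0, show α + (1 - α) = 1 by ring, Real.rpow_one]
    have h6 : 0 < x ^ α := by positivity
    nlinarith
  have hch : ∀ d : ℕ, ∃ (l : ℕ) (y : ℝ), (1 ≤ d → l ∈ Cl d b) ∧ (2 ≤ y ∧ y ≤ x) ∧
      (d ∈ Ioc (D / 2) D →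
        1 / 8 * √(x / (D * Real.log x)) ≤ |piR z0 b ⌊y⌋₊ d l - li y / Nat.totient d|) := by
    intro d
    by_cases hd : d ∈ Ioc (D / 2) D
    · have hd' := hd
      rw [Finset.mem_Ioc] at hd
      have h7 : (D : ℝ) < 2 * d := by
        have : D < 2 * d := by omega
        exact_mod_cast this
      have hdD : (d : ℝ) ≤ D := by exact_mod_cast hd.2
      obtain ⟨l, hl, y, hy1, hy2, hy3⟩ := hx d (by linarith) (by linarith)
      refine ⟨l, y, fun _ => hl, ⟨hy1, hy2⟩, fun _ => le_trans ?_ hy3⟩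
      have hd0 : (0 : ℝ) < d := by linarith
      gcongr
    · by_cases hd1 : 1 ≤ d
      · have : (Cl d b).Nonempty := by
          rw [← Finset.card_pos, hcard d hd1]
          exact Nat.totient_pos.2 hd1
        obtain ⟨l, hl⟩ := this
        exact ⟨l, 2, fun _ => hl, ⟨le_rfl, by linarith⟩, fun h => absurd h hd⟩
      · exact ⟨0, 2, fun h => absurd h hd1, ⟨le_rfl, by linarith⟩, fun h => absurd h hd⟩
  choose l y hl hy hly using hch
  refine ⟨l, y, hl, hy, ?_⟩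
  have hsub : Ioc (D / 2) D ⊆ Icc 1 D := by
    intro d hd
    rw [Finset.mem_Ioc] at hd
    rw [Finset.mem_Icc]
    omega
  have hcardI : (D : ℝ) / 2 ≤ ((Ioc (D / 2) D).card : ℝ) := by
    rw [Nat.card_Ioc]
    have : D ≤ 2 * (D - D / 2) := by omega
    have h8 : (D : ℝ) ≤ 2 * ((D - D / 2 : ℕ) : ℝ) := by exact_mod_cast this
    linarith
  have hD0 : (0 : ℝ) < D := by linarith
  have hL0 : 0 < Real.log x := by linarith
  have hmain : (D : ℝ) / 2 * (1 / 8 * √(x / (D * Real.log x))) ≤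
      ∑ d ∈ Icc 1 D, |piR z0 b ⌊y d⌋₊ d (l d) - li (y d) / Nat.totient d| := by
    calc (D : ℝ) / 2 * (1 / 8 * √(x / (D * Real.log x)))
        ≤ ((Ioc (D / 2) D).card : ℝ) * (1 / 8 * √(x / (D * Real.log x))) := by gcongr
      _ = ∑ d ∈ Ioc (D / 2) D, (1 / 8 * √(x / (D * Real.log x))) := by
          rw [sum_const, nsmul_eq_mul]
      _ ≤ ∑ d ∈ Ioc (D / 2) D, |piR z0 b ⌊y d⌋₊ d (l d) - li (y d) / Nat.totient d| :=
          sum_le_sum fun d hd => hly d hd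
      _ ≤ _ := sum_le_sum_of_subset_of_nonneg hsub fun _ _ _ => abs_nonneg _
  refine le_trans ?_ hmain
  -- the elementary inequality
  have e2 : (D : ℝ) * √(x / (D * Real.log x)) = √(D * x) / √(Real.log x) := by
    rw [← Real.sqrt_div (by positivity)]
    have : (D : ℝ) * √(x / (D * Real.log x)) = √((D : ℝ) ^ 2) * √(x / (D * Real.log x)) := by
      rw [Real.sqrt_sq hD0.le]
    rw [this, ← Real.sqrt_mul (by positivity)]
    congr 1
    field_simp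
  have e3 : (D : ℝ) / 2 * (1 / 8 * √(x / (D * Real.log x))) = 1 / 16 * (√(D * x) / √(Real.log x)) := by
    rw [← e2]
    ring
  rw [e3]
  have hs0 : 0 < √(Real.log x) := Real.sqrt_pos.2 hL0
  have hDge : x ^ α / 4 ≤ D := by linarith
  have e4 : x ^ ((1 + α) / 2) / 2 ≤ √(D * x) := by
    apply Real.le_sqrt_of_sq_le
    have e5 : (x ^ ((1 + α) / 2)) ^ 2 = x ^ α * x := by
      rw [← Real.rpow_natCast, ← Real.rpow_mul hx0.le]
      have : (1 + α) / 2 * ((2 : ℕ) : ℝ) = α + 1 := by push_cast; ring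
      rw [this, Real.rpow_add_one hx0.ne']
    rw [div_pow, e5]
    nlinarith
  rw [div_le_iff₀ (by positivity)]
  have e6 : 1 / 16 * (√(D * x) / √(Real.log x)) * (32 * √(Real.log x)) = 2 * √(D * x) := by
    field_simp
    norm_num
  rw [e6]
  linarith

end Pool.Agent.H535.BF
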